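import Pool.Agent.H46CN.Pairs

/-! An upper bound for the number of ideals in a dyadic range in terms of the ideals of small
norm. -/

set_option autoImplicit false

namespace Pool.Agent.H46CN

open Finset NumberField NumberField.InfinitePlace Module Submodule Pool.Agent.TH847.LS
open scoped Classical NNReal nonZeroDivisors

variable {K : Type} [Field K] [NumberField K]

/-- the ideal `γ A` when it is integral -/
noncomputable def Jf (A : Ideal (𝓞 K)) (γ : K) : Ideal (𝓞 K) :=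
  if h : ∃ J : Ideal (𝓞 K), (J : FractionalIdeal (𝓞 K)⁰ K) =
      FractionalIdeal.spanSingleton (𝓞 K)⁰ γ * (A : FractionalIdeal (𝓞 K)⁰ K)
  then h.choose else ⊥

theorem Jf_spec {A : Ideal (𝓞 K)} (hA : A ≠ ⊥) {γ : K}
    (hγ : γ ∈ (invU A hA : FractionalIdeal (𝓞 K)⁰ K)) :
    (Jf A γ : FractionalIdeal (𝓞 K)⁰ K) =
      FractionalIdeal.spanSingleton (𝓞 K)⁰ γ * (A : FractionalIdeal (𝓞 K)⁰ K) := by
  have h := exists_ideal hA hγ
  unfold Jf
  rw [dif_pos h]
  exact h.choose_spec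

theorem exists_many {d : ℕ} (hd : finrank ℚ K = d) {N X : ℕ} (hX0 : 0 < X) {t : ℝ} (ht : 0 < t)
    (htd : t ^ d = (N : ℝ) / (2 * X)) {m : ℕ}
    (hm : (m : ℝ) * (2 ^ (d + 1) * √|(discr K : ℝ)|) < N) {A : Ideal (𝓞 K)} (hA : A ≠ ⊥)
    (hAX : X < Ideal.absNorm A) :
    ∃ T : Finset K, m ≤ T.card ∧ ∀ x ∈ T, x ≠ 0 ∧
      x ∈ (invU A hA : FractionalIdeal (𝓞 K)⁰ K) ∧ ∀ w : InfinitePlace K, w x < t := by
  have hXr : (0 : ℝ) < X := by exact_mod_cast hX0
  have hAr : (X : ℝ) < (Ideal.absNorm A : ℕ) := by exact_mod_cast hAX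
  let tn : ℝ≥0 := ⟨t, ht.le⟩
  obtain ⟨T, hT1, hT2⟩ := exists_card_gt_real (invU A hA) (g := fun _ => tn / 2)
    (f := fun _ => tn) (fun _ => by rw [add_halves]) m (by
      rw [norm_invU]
      have e1 : ∏ w : InfinitePlace K, (((tn / 2 : ℝ≥0)) : ℝ) ^ mult w = (t / 2) ^ d := by
        rw [Finset.prod_pow_eq_pow_sum, InfinitePlace.sum_mult_eq, hd]
        rfl
      rw [e1, div_pow, htd]
      have hs : 0 ≤ √|(discr K : ℝ)| := Real.sqrt_nonneg _
      calc (m : ℝ) * (((Ideal.absNorm A : ℕ) : ℝ)⁻¹ * √|(discr K : ℝ)|)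
          ≤ (m : ℝ) * ((X : ℝ)⁻¹ * √|(discr K : ℝ)|) := by gcongr
        _ = ((m : ℝ) * (2 ^ (d + 1) * √|(discr K : ℝ)|)) / (2 ^ (d + 1) * X) := by
            field_simp
        _ < (N : ℝ) / (2 ^ (d + 1) * X) := by gcongr
        _ = (N : ℝ) / (2 * X) / 2 ^ d := by rw [pow_succ]; field_simp)
  refine ⟨T.erase 0, ?_, ?_⟩
  · have := Finset.pred_card_le_card_erase (s := T) (a := 0)
    omega
  · intro x hx
    rw [Finset.mem_erase] at hx
    exact ⟨hx.1, (hT2 x hx.2).1, fun w => (hT2 x hx.2).2 w⟩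

/-- the data of a pair -/
theorem pair_bounds {d : ℕ} (hd : finrank ℚ K = d) {N X : ℕ} (hX0 : 0 < X) (hN0 : 0 < N)
    {t : ℝ} (ht : 0 < t)
    (htd : t ^ d = (N : ℝ) / (2 * X)) {A : Ideal (𝓞 K)} (hA : A ≠ ⊥)
    (hAX : Ideal.absNorm A ≤ 2 * X) {γ : K} (hγ0 : γ ≠ 0)
    (hγ : γ ∈ (invU A hA : FractionalIdeal (𝓞 K)⁰ K)) (hγt : ∀ w : InfinitePlace K, w γ < t) :
    Jf A γ ∈ FI K N ∧
      (∀ w : InfinitePlace K, Real.log (t / w γ) ≤ Real.log ((N : ℝ) / Ideal.absNorm (Jf A γ))) ∧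
      (∏ w : InfinitePlace K, (Real.exp 1 / w γ) ^ mult w) * (Ideal.absNorm (Jf A γ) : ℕ) ≤
        Real.exp 1 ^ d * (2 * X) := by
  have hXr : (0 : ℝ) < X := by exact_mod_cast hX0
  have hNr : (0 : ℝ) < N := by exact_mod_cast hN0
  have hAr : (0 : ℝ) < (Ideal.absNorm A : ℕ) := by exact_mod_cast absNorm_pos hA
  have hA2 : ((Ideal.absNorm A : ℕ) : ℝ) ≤ 2 * X := by exact_mod_cast hAX
  have hnorm := norm_ideal (Jf_spec hA hγ)
  have hwpos : ∀ w : InfinitePlace K, 0 < w γ := fun w => InfinitePlace.pos_iff.mpr hγ0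
  have hprod : ∏ w : InfinitePlace K, w γ ^ mult w = |((Algebra.norm ℚ γ : ℚ) : ℝ)| := by
    rw [prod_eq_abs_norm γ, Rat.cast_abs]
  set ν : ℝ := |((Algebra.norm ℚ γ : ℚ) : ℝ)| with hν
  have hν0 : 0 < ν := by rw [← hprod]; exact Finset.prod_pos fun w _ => pow_pos (hwpos w) _
  have hJpos : (0 : ℝ) < (Ideal.absNorm (Jf A γ) : ℕ) := by rw [hnorm]; positivity
  have hJne : Jf A γ ≠ ⊥ := by
    intro h
    rw [h, Ideal.absNorm_bot] at hJpos
    simp at hJpos
  have hνt : ν ≤ t ^ d := by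
    rw [← hprod, ← hd, ← InfinitePlace.sum_mult_eq, ← Finset.prod_pow_eq_pow_sum]
    exact Finset.prod_le_prod (fun w _ => pow_nonneg (hwpos w).le _)
      fun w _ => pow_le_pow_left₀ (hwpos w).le (hγt w).le _
  have hsum : ∑ w : InfinitePlace K, (mult w : ℝ) * Real.log (t / w γ) = Real.log (t ^ d / ν) := by
    rw [← hprod, ← hd, ← InfinitePlace.sum_mult_eq, ← Finset.prod_pow_eq_pow_sum,
      ← Finset.prod_div_distrib, Real.log_prod (fun w _ => by
        have := hwpos w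
        positivity)]
    refine Finset.sum_congr rfl fun w _ => ?_
    rw [← div_pow, Real.log_pow]
  have hpos : ∀ w : InfinitePlace K, 0 ≤ Real.log (t / w γ) := fun w =>
    Real.log_nonneg (by rw [le_div_iff₀ (hwpos w), one_mul]; exact (hγt w).le)
  have hdiv : t ^ d / ν ≤ (N : ℝ) / (Ideal.absNorm (Jf A γ) : ℕ) := by
    rw [htd, hnorm, div_div, div_le_div_iff_of_pos_left hNr (by positivity) (by positivity)]
    nlinarith
  refine ⟨?_, ?_, ?_⟩
  · rw [mem_FI]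
    refine ⟨?_, hJne⟩
    have h1 : ((Ideal.absNorm (Jf A γ) : ℕ) : ℝ) ≤ N := by
      rw [hnorm]
      calc ν * (Ideal.absNorm A : ℕ) ≤ t ^ d * (2 * X) := by gcongr
        _ = N := by rw [htd]; field_simp
    exact_mod_cast h1
  · intro w
    calc Real.log (t / w γ) ≤ (mult w : ℝ) * Real.log (t / w γ) := by
          have h1 : (1 : ℝ) ≤ mult w := by exact_mod_cast InfinitePlace.one_le_mult
          nlinarith [hpos w]
      _ ≤ ∑ w : InfinitePlace K, (mult w : ℝ) * Real.log (t / w γ) :=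
          Finset.single_le_sum (f := fun w : InfinitePlace K => (mult w : ℝ) * Real.log (t / w γ))
            (fun w _ => mul_nonneg (Nat.cast_nonneg _) (hpos w)) (Finset.mem_univ w)
      _ = Real.log (t ^ d / ν) := hsum
      _ ≤ _ := Real.log_le_log (by positivity) hdiv
  · have h1 : ∏ w : InfinitePlace K, (Real.exp 1 / w γ) ^ mult w = Real.exp 1 ^ d / ν := by
      rw [← hprod, ← hd, ← InfinitePlace.sum_mult_eq, ← Finset.prod_pow_eq_pow_sum,
        ← Finset.prod_div_distrib]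
      refine Finset.prod_congr rfl fun w _ => ?_
      rw [div_pow]
    rw [h1, hnorm]
    calc Real.exp 1 ^ d / ν * (ν * (Ideal.absNorm A : ℕ)) =
        Real.exp 1 ^ d * (Ideal.absNorm A : ℕ) := by field_simp
      _ ≤ _ := by gcongr

/-- the dyadic bound -/
theorem dyadic_count {d : ℕ} (hd : finrank ℚ K = d) {N X : ℕ} (hX0 : 0 < X)
    (hN : 2 ^ (d + 2) * √|(discr K : ℝ)| ≤ N)
    (hX : (N : ℝ) * ((d : ℝ) * (2 * N) ^ d) ^ d ≤ 2 * X) :
    (((FI K (2 * X)).filter (fun A => X < Ideal.absNorm A)).card : ℝ) ≤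
      8 * (16 * Real.exp 1) ^ d * ((X : ℝ) / N) *
        ∑ J ∈ FI K N, (1 + Real.log ((N : ℝ) / Ideal.absNorm J)) ^ d := by
  have hd0 : 0 < d := by rw [← hd]; exact Module.finrank_pos
  have hD0 : 0 < √|(discr K : ℝ)| := by
    apply Real.sqrt_pos.mpr
    have : (discr K : ℝ) ≠ 0 := by exact_mod_cast discr_ne_zero K
    positivity
  set s : ℝ := √|(discr K : ℝ)| with hs
  have hXr : (0 : ℝ) < X := by exact_mod_cast hX0
  have hNr : (0 : ℝ) < N := lt_of_lt_of_le (by positivity) hN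
  have hN0 : 0 < N := by exact_mod_cast hNr
  have hN1 : 2 ^ d * s < N := by
    refine lt_of_lt_of_le ?_ hN
    rw [pow_add]
    have : (0 : ℝ) < 2 ^ d * s := by positivity
    nlinarith
  -- the side length
  set t : ℝ := ((N : ℝ) / (2 * X)) ^ ((d : ℝ)⁻¹) with ht
  have hq0 : (0 : ℝ) < (N : ℝ) / (2 * X) := by positivity
  have ht0 : 0 < t := Real.rpow_pos_of_pos hq0 _
  have htd : t ^ d = (N : ℝ) / (2 * X) := by
    rw [ht, ← Real.rpow_natCast, ← Real.rpow_mul hq0.le, inv_mul_cancel₀ (by exact_mod_cast hd0.ne'),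
      Real.rpow_one]
  have htinv : (d : ℝ) * (2 * N) ^ d ≤ t⁻¹ := by
    have h1 : ((d : ℝ) * (2 * N) ^ d) ^ d ≤ (t⁻¹) ^ d := by
      rw [inv_pow, htd, inv_div, le_div_iff₀ hNr]
      linarith
    exact le_of_pow_le_pow_left₀ hd0.ne' (by positivity) h1
  -- the number of elements
  set B : ℝ := 2 ^ (d + 1) * s with hB
  have hB0 : 0 < B := by positivity
  set m : ℕ := ⌈(N : ℝ) / B⌉₊ - 1 with hm
  have hNB : 2 ≤ (N : ℝ) / B := by
    rw [le_div_iff₀ hB0, hB]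
    calc 2 * (2 ^ (d + 1) * s) = 2 ^ (d + 2) * s := by ring
      _ ≤ N := hN
  have hceil : 1 ≤ ⌈(N : ℝ) / B⌉₊ := Nat.one_le_ceil_iff.mpr (by positivity)
  have hm1 : (m : ℝ) < (N : ℝ) / B := by
    have h1 : m < ⌈(N : ℝ) / B⌉₊ := by omega
    exact Nat.lt_ceil.mp h1
  have hm2 : (N : ℝ) / B ≤ 2 * m := by
    have h1 : (N : ℝ) / B ≤ (m : ℝ) + 1 := by
      have h2 := Nat.le_ceil ((N : ℝ) / B)
      have h3 : ((⌈(N : ℝ) / B⌉₊ : ℕ) : ℝ) = (m : ℝ) + 1 := by
        rw [hm, Nat.cast_sub hceil]; simp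
      linarith
    linarith
  have hmB : (m : ℝ) * (2 ^ (d + 1) * s) < N := by
    rwa [lt_div_iff₀ hB0] at hm1
  set AX := (FI K (2 * X)).filter (fun A => X < Ideal.absNorm A) with hAX
  have hAXmem : ∀ A ∈ AX, A ≠ ⊥ ∧ X < Ideal.absNorm A ∧ Ideal.absNorm A ≤ 2 * X := by
    intro A hA
    rw [hAX, mem_filter, mem_FI] at hA
    exact ⟨hA.1.2, hA.2, hA.1.1⟩
  have hex : ∀ A : Ideal (𝓞 K), ∃ T : Finset K, A ∈ AX → m ≤ T.card ∧ ∀ x ∈ T, x ≠ 0 ∧
      (∀ hA : A ≠ ⊥, x ∈ (invU A hA : FractionalIdeal (𝓞 K)⁰ K)) ∧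
        ∀ w : InfinitePlace K, w x < t := by
    intro A
    by_cases hA : A ∈ AX
    · obtain ⟨h1, h2, h3⟩ := hAXmem A hA
      obtain ⟨T, hT1, hT2⟩ := exists_many hd hX0 ht0 htd hmB h1 h2
      exact ⟨T, fun _ => ⟨hT1, fun x hx => ⟨(hT2 x hx).1, fun _ => (hT2 x hx).2.1,
        (hT2 x hx).2.2⟩⟩⟩
    · exact ⟨∅, fun h => absurd h hA⟩
  choose Γ hΓ using hex
  -- the pairs
  set P : Finset (Σ _ : Ideal (𝓞 K), K) := AX.sigma Γ with hP
  have hPcard : (AX.card : ℝ) * m ≤ P.card := by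
    rw [hP, Finset.card_sigma]
    have : AX.card * m ≤ ∑ A ∈ AX, (Γ A).card := by
      rw [← smul_eq_mul]
      exact Finset.card_nsmul_le_sum _ _ _ fun A hA => (hΓ A hA).1
    exact_mod_cast this
  have hPdat : ∀ p ∈ P, ∃ hA : p.1 ≠ ⊥, Ideal.absNorm p.1 ≤ 2 * X ∧ p.2 ≠ 0 ∧
      p.2 ∈ (invU p.1 hA : FractionalIdeal (𝓞 K)⁰ K) ∧ ∀ w : InfinitePlace K, w p.2 < t := by
    intro p hp
    rw [hP, Finset.mem_sigma] at hp
    obtain ⟨h1, h2, h3⟩ := hAXmem p.1 hp.1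
    have h4 := (hΓ p.1 hp.1).2 p.2 hp.2
    exact ⟨h1, h3, h4.1, h4.2.1 h1, h4.2.2⟩
  let sf : K → InfinitePlace K → ℕ := fun γ w => ⌊Real.log (t / w γ)⌋₊
  let M : Ideal (𝓞 K) → ℕ := fun J => ⌊Real.log ((N : ℝ) / Ideal.absNorm J)⌋₊
  set Tg : Finset (Σ _ : Ideal (𝓞 K), InfinitePlace K → ℕ) :=
    (FI K N).sigma (fun J => Fintype.piFinset (fun _ : InfinitePlace K => range (M J + 1))) with hTg
  let Φ : (Σ _ : Ideal (𝓞 K), K) → (Σ _ : Ideal (𝓞 K), InfinitePlace K → ℕ) :=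
    fun p => ⟨Jf p.1 p.2, sf p.2⟩
  have hΦ : ∀ p ∈ P, Φ p ∈ Tg := by
    intro p hp
    obtain ⟨hA, hA2, hγ0, hγ, hγt⟩ := hPdat p hp
    obtain ⟨b1, b2, b3⟩ := pair_bounds hd hX0 hN0 ht0 htd hA hA2 hγ0 hγ hγt
    rw [hTg, Finset.mem_sigma]
    refine ⟨b1, ?_⟩
    rw [Fintype.mem_piFinset]
    intro w
    rw [mem_range]
    exact Nat.lt_succ_of_le (Nat.floor_le_floor (b2 w))
  -- the fibres
  set R : ℝ := 8 ^ d * (Real.exp 1 ^ d * (2 * X)) with hR
  have hR0 : 0 < R := by positivity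
  have hfib : ∀ q ∈ Tg, ((P.filter (fun p => Φ p = q)).card : ℝ) * s ≤ R := by
    intro q hq
    rcases (P.filter (fun p => Φ p = q)).eq_empty_or_nonempty with h0 | ⟨p0, hp0⟩
    · rw [h0]
      simp only [Finset.card_empty, Nat.cast_zero, zero_mul]
      exact hR0.le
    rw [mem_filter] at hp0
    obtain ⟨hA, hA2, hγ0, hγ, hγt⟩ := hPdat p0 hp0.1
    obtain ⟨b1, b2, b3⟩ := pair_bounds hd hX0 hN0 ht0 htd hA hA2 hγ0 hγ hγt
    have hq1 : q.1 = Jf p0.1 p0.2 := by rw [← hp0.2]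
    have hq2 : q.2 = sf p0.2 := by rw [← hp0.2]
    have hJne : q.1 ≠ ⊥ := by
      rw [hq1]
      rw [mem_FI] at b1
      exact b1.2
    set ρ : InfinitePlace K → ℝ≥0 := fun w =>
      ⟨Real.exp (q.2 w + 1) / t, by positivity⟩ with hρ
    have hρval : ∀ w, (ρ w : ℝ) = Real.exp (q.2 w + 1) / t := fun w => rfl
    -- the image
    set T : Finset K := (P.filter (fun p => Φ p = q)).image (fun p => p.2⁻¹) with hT
    have hspec : ∀ p ∈ P.filter (fun p => Φ p = q), p.2 ≠ 0 ∧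
        (p.1 : FractionalIdeal (𝓞 K)⁰ K) =
          FractionalIdeal.spanSingleton (𝓞 K)⁰ (p.2⁻¹) * (q.1 : FractionalIdeal (𝓞 K)⁰ K) := by
      intro p hp
      rw [mem_filter] at hp
      obtain ⟨hA', _, hγ0', hγ', _⟩ := hPdat p hp.1
      refine ⟨hγ0', ?_⟩
      have h1 := Jf_spec hA' hγ'
      have h2 : q.1 = Jf p.1 p.2 := by rw [← hp.2]
      rw [h2, h1, ← mul_assoc, FractionalIdeal.spanSingleton_mul_spanSingleton,
        inv_mul_cancel₀ hγ0', FractionalIdeal.spanSingleton_one, one_mul]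
    have hTcard : T.card = (P.filter (fun p => Φ p = q)).card := by
      rw [hT, Finset.card_image_of_injOn]
      intro p hp p' hp' h
      have hp1 := hspec p (by exact_mod_cast hp)
      have hp2 := hspec p' (by exact_mod_cast hp')
      simp only at h
      have h1 : p.2 = p'.2 := inv_injective h
      have h2 : p.1 = p'.1 := by
        have h3 : (p.1 : FractionalIdeal (𝓞 K)⁰ K) = (p'.1 : FractionalIdeal (𝓞 K)⁰ K) := by
          rw [hp1.2, hp2.2, h1]
        exact FractionalIdeal.coeIdeal_injective h3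
      exact Sigma.ext h2 (heq_of_eq h1)
    have hTmem : ∀ x ∈ T, x ∈ (invU q.1 hJne : FractionalIdeal (𝓞 K)⁰ K) ∧
        ∀ w : InfinitePlace K, w x < ρ w := by
      intro x hx
      rw [hT, Finset.mem_image] at hx
      obtain ⟨p, hp, rfl⟩ := hx
      obtain ⟨hp1, hp2⟩ := hspec p hp
      rw [mem_filter] at hp
      obtain ⟨_, _, _, _, hγt'⟩ := hPdat p hp.1
      constructor
      · rw [invU_val, ← FractionalIdeal.spanSingleton_le_iff_mem]
        have hJ0 : (q.1 : FractionalIdeal (𝓞 K)⁰ K) ≠ 0 := by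
          rwa [Ne, FractionalIdeal.coeIdeal_eq_zero]
        calc FractionalIdeal.spanSingleton (𝓞 K)⁰ (p.2⁻¹)
            = (FractionalIdeal.spanSingleton (𝓞 K)⁰ (p.2⁻¹) *
                (q.1 : FractionalIdeal (𝓞 K)⁰ K)) * (q.1 : FractionalIdeal (𝓞 K)⁰ K)⁻¹ := by
              rw [mul_assoc, mul_inv_cancel₀ hJ0, mul_one]
          _ = (p.1 : FractionalIdeal (𝓞 K)⁰ K) * (q.1 : FractionalIdeal (𝓞 K)⁰ K)⁻¹ := by
              rw [← hp2]
          _ ≤ 1 * (q.1 : FractionalIdeal (𝓞 K)⁰ K)⁻¹ :=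
              mul_le_mul_left FractionalIdeal.coeIdeal_le_one _
          _ = _ := one_mul _
      · intro w
        have hw : 0 < w p.2 := InfinitePlace.pos_iff.mpr hp1
        have h3 : q.2 w = ⌊Real.log (t / w p.2)⌋₊ := by rw [← hp.2]
        have h4 := Nat.lt_floor_add_one (Real.log (t / w p.2))
        rw [← h3] at h4
        have h5 : t / w p.2 < Real.exp (q.2 w + 1) := by
          rw [← Real.log_lt_iff_lt_exp (by positivity)]
          exact h4
        rw [map_inv₀, hρval, lt_div_iff₀ ht0, inv_mul_eq_div]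
        exact h5
    have hcell := card_cell hd N hN1 q.1 hJne ρ (by
      intro w
      rw [hρval]
      refine htinv.trans ?_
      rw [div_eq_mul_inv]
      have : 1 ≤ Real.exp (q.2 w + 1) := Real.one_le_exp (by positivity)
      have h6 : 0 < t⁻¹ := by positivity
      nlinarith) T hTmem
    rw [hTcard, ← hs] at hcell
    refine hcell.trans ?_
    rw [hR, mul_assoc]
    refine mul_le_mul_of_nonneg_left ?_ (by positivity)
    refine le_trans ?_ b3
    rw [hq1]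
    refine mul_le_mul_of_nonneg_right ?_ (Nat.cast_nonneg _)
    refine Finset.prod_le_prod (fun w _ => pow_nonneg (NNReal.coe_nonneg _) _) fun w _ => ?_
    refine pow_le_pow_left₀ (NNReal.coe_nonneg _) ?_ _
    rw [hρval]
    have hw : 0 < w p0.2 := InfinitePlace.pos_iff.mpr hγ0
    have h7 : (q.2 w : ℝ) ≤ Real.log (t / w p0.2) := by
      rw [hq2]
      refine Nat.floor_le (Real.log_nonneg ?_)
      rw [le_div_iff₀ hw, one_mul]
      exact (hγt w).le
    rw [Real.exp_add, div_le_div_iff₀ ht0 hw]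
    have h8 : Real.exp (q.2 w) ≤ t / w p0.2 := by
      rw [← Real.le_log_iff_exp_le (by positivity)]
      exact h7
    rw [le_div_iff₀ hw] at h8
    nlinarith [Real.exp_pos 1]
  -- the count
  have hcardP : (P.card : ℝ) * s ≤ Tg.card * R := by
    rw [Finset.card_eq_sum_card_fiberwise hΦ, Nat.cast_sum, Finset.sum_mul]
    calc ∑ q ∈ Tg, ((P.filter (fun p => Φ p = q)).card : ℝ) * s ≤ ∑ q ∈ Tg, R :=
          Finset.sum_le_sum hfib
      _ = Tg.card * R := by simp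
  have hTcard : (Tg.card : ℝ) ≤ ∑ J ∈ FI K N, (1 + Real.log ((N : ℝ) / Ideal.absNorm J)) ^ d := by
    rw [hTg, Finset.card_sigma, Nat.cast_sum]
    refine Finset.sum_le_sum fun J hJ => ?_
    rw [mem_FI] at hJ
    have h4 : (0 : ℝ) < Ideal.absNorm J := by exact_mod_cast absNorm_pos hJ.2
    have h5 : 1 ≤ (N : ℝ) / Ideal.absNorm J := by
      rw [le_div_iff₀ h4, one_mul]
      exact_mod_cast hJ.1
    have hL0 := Real.log_nonneg h5
    rw [Fintype.card_piFinset, Finset.prod_const, Finset.card_range, Finset.card_univ]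
    have h2 : Fintype.card (InfinitePlace K) ≤ d := by
      rw [← hd, ← InfinitePlace.sum_mult_eq (K := K), Fintype.card_eq_sum_ones]
      exact Finset.sum_le_sum fun w _ => Nat.succ_le_of_lt InfinitePlace.mult_pos
    have h3 : ((M J : ℝ) + 1) ≤ 1 + Real.log ((N : ℝ) / Ideal.absNorm J) := by
      have := Nat.floor_le hL0
      linarith
    calc (((M J + 1) ^ Fintype.card (InfinitePlace K) : ℕ) : ℝ)
        = ((M J : ℝ) + 1) ^ Fintype.card (InfinitePlace K) := by push_cast; rfl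
      _ ≤ ((M J : ℝ) + 1) ^ d := by
          refine pow_le_pow_right₀ ?_ h2
          have : (0 : ℝ) ≤ M J := by positivity
          linarith
      _ ≤ _ := by gcongr
  set W := ∑ J ∈ FI K N, (1 + Real.log ((N : ℝ) / Ideal.absNorm J)) ^ d with hW
  have h1 : (AX.card : ℝ) * ((N : ℝ) / B) ≤ 2 * P.card := by
    calc (AX.card : ℝ) * ((N : ℝ) / B) ≤ (AX.card : ℝ) * (2 * m) := by gcongr
      _ = 2 * ((AX.card : ℝ) * m) := by ring
      _ ≤ 2 * P.card := by gcongr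
  have h2 : (AX.card : ℝ) * ((N : ℝ) / B) * s ≤ 2 * (W * R) := by
    calc (AX.card : ℝ) * ((N : ℝ) / B) * s ≤ 2 * P.card * s := by gcongr
      _ = 2 * ((P.card : ℝ) * s) := by ring
      _ ≤ 2 * (Tg.card * R) := by gcongr
      _ ≤ 2 * (W * R) := by gcongr
  have h3 : (AX.card : ℝ) * ((N : ℝ) / B) * s = (AX.card : ℝ) * ((N : ℝ) / 2 ^ (d + 1)) := by
    rw [hB]; field_simp
  rw [h3, mul_div_assoc', div_le_iff₀ (by positivity)] at h2
  rw [← mul_le_mul_iff_left₀ hNr]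
  refine h2.trans (le_of_eq ?_)
  rw [hR]
  have e1 : (16 * Real.exp 1) ^ d = 2 ^ d * (8 ^ d * Real.exp 1 ^ d) := by
    rw [← mul_pow, ← mul_pow]; ring_nf
  rw [e1]
  field_simp
  ring

end Pool.Agent.H46CN
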