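import Pool.Agent.H46CN.Upper

/-! Lower bound for the sum of reciprocals of norms of ideals in a long range by products of
primes. -/

set_option autoImplicit false

namespace Pool.Agent.H46CN

open Finset NumberField Pool.Agent.TH847.LS Pool.Agent.TH847.LG
open scoped Classical nonZeroDivisors

/-- the prime ideals with norm in a range -/
noncomputable def QP (K : Type) [Field K] [NumberField K] (X y : ℕ) : Finset (Ideal (𝓞 K)) :=
  (PI K y).filter (fun P => X < Ideal.absNorm P)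

/-- the sum of the reciprocals of the norms of the primes in a range -/
noncomputable def sg (K : Type) [Field K] [NumberField K] (X y : ℕ) : ℝ :=
  ∑ P ∈ QP K X y, 1 / (Ideal.absNorm P : ℝ)

variable {K : Type} [Field K] [NumberField K]

theorem mem_QP {X y : ℕ} {P : Ideal (𝓞 K)} :
    P ∈ QP K X y ↔ Prime P ∧ X < Ideal.absNorm P ∧ Ideal.absNorm P ≤ y := by
  rw [QP, mem_filter, mem_PI]
  constructor
  · rintro ⟨⟨⟨h1, h2⟩, h3⟩, h4⟩
    exact ⟨prime_of h2 h3, h4, h1⟩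
  · rintro ⟨h1, h2, h3⟩
    exact ⟨⟨⟨h3, h1.ne_zero⟩, Ideal.isPrime_of_prime h1⟩, h2⟩

theorem prod_ne_zero' {X y : ℕ} {s : Finset (Ideal (𝓞 K))} (hs : s ⊆ QP K X y) :
    (∏ P ∈ s, P) ≠ 0 :=
  Finset.prod_ne_zero_iff.mpr fun P hP => (mem_QP.mp (hs hP)).1.ne_zero

theorem dvd_prod_iff {X y : ℕ} {s : Finset (Ideal (𝓞 K))} (hs : s ⊆ QP K X y)
    {P : Ideal (𝓞 K)} (hP : P ∈ QP K X y) : P ∣ ∏ Q ∈ s, Q ↔ P ∈ s := by
  constructor
  · intro h
    have hPp := (mem_QP.mp hP).1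
    obtain ⟨Q, hQ, hPQ⟩ := (Prime.dvd_finsetProd_iff hPp _).mp h
    have hQp := (mem_QP.mp (hs hQ)).1
    have h1 : Associated P Q := hPp.associated_of_dvd hQp hPQ
    rwa [associated_iff_eq.mp h1]
  · intro h
    exact Finset.dvd_prod_of_mem _ h

theorem sum_le_of_inj {α β : Type*} (S : Finset α) (T : Finset β) (e : α → β) (f : α → ℝ)
    (g : β → ℝ) (hg : ∀ b, 0 ≤ g b) (he : ∀ a ∈ S, e a ∈ T)
    (hinj : ∀ a ∈ S, ∀ a' ∈ S, e a = e a' → a = a') (hf : ∀ a ∈ S, f a = g (e a)) :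
    ∑ a ∈ S, f a ≤ ∑ b ∈ T, g b := by
  have h1 : ∑ a ∈ S, f a = ∑ b ∈ S.image e, g b := by
    rw [Finset.sum_image (fun a ha a' ha' h => hinj a ha a' ha' h)]
    exact Finset.sum_congr rfl hf
  rw [h1]
  refine Finset.sum_le_sum_of_subset_of_nonneg ?_ fun b _ _ => hg b
  intro b hb
  obtain ⟨a, ha, rfl⟩ := Finset.mem_image.mp hb
  exact he a ha

/-- the map used in the lower bound -/
noncomputable def mp (x : Ideal (𝓞 K) × Finset (Ideal (𝓞 K))) : Ideal (𝓞 K) :=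
  x.1 * ∏ P ∈ x.2, P

theorem not_dvd_small {N X y : ℕ} (hNX : N ≤ X) {J P : Ideal (𝓞 K)} (hJ : J ∈ FI K N)
    (hP : P ∈ QP K X y) : ¬ P ∣ J := by
  intro h
  rw [mem_FI] at hJ
  have h1 := Nat.le_of_dvd (absNorm_pos hJ.2) (Ideal.absNorm_dvd_absNorm_of_le (Ideal.le_of_dvd h))
  have h2 := (mem_QP.mp hP).2.1
  omega

theorem mp_inj_aux {N X y : ℕ} (hNX : N ≤ X) {J J' : Ideal (𝓞 K)} {s s' : Finset (Ideal (𝓞 K))}
    (hJ' : J' ∈ FI K N) (hs : s ⊆ QP K X y) (hs' : s' ⊆ QP K X y)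
    (h : J * ∏ P ∈ s, P = J' * ∏ P ∈ s', P) : s ⊆ s' := by
  intro P hP
  have h3 : P ∣ J' * ∏ P ∈ s', P := by
    rw [← h]
    exact (Finset.dvd_prod_of_mem (fun Q => Q) hP).trans (dvd_mul_left _ _)
  have hPQ := hs hP
  rcases (mem_QP.mp hPQ).1.dvd_or_dvd h3 with h4 | h4
  · exact absurd h4 (not_dvd_small hNX hJ' hPQ)
  · exact (dvd_prod_iff hs' hPQ).mp h4

theorem lower_A {N X y v : ℕ} (hNX : N ≤ X) :
    SK K N * ∑ s ∈ (QP K X y).powerset.filter
      (fun s => s ≠ ∅ ∧ Ideal.absNorm (∏ P ∈ s, P) ≤ v), 1 / (Ideal.absNorm (∏ P ∈ s, P) : ℝ) ≤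
      TS K X (N * v) := by
  set F := (QP K X y).powerset.filter
      (fun s => s ≠ ∅ ∧ Ideal.absNorm (∏ P ∈ s, P) ≤ v) with hF
  have hFm : ∀ s ∈ F, s ⊆ QP K X y ∧ s ≠ ∅ ∧ Ideal.absNorm (∏ P ∈ s, P) ≤ v := by
    intro s hs
    rw [hF, mem_filter, mem_powerset] at hs
    exact hs
  rw [SK, Finset.sum_mul_sum, ← Finset.sum_product', TS]
  refine sum_le_of_inj (FI K N ×ˢ F) _ mp
    (fun x => 1 / (Ideal.absNorm x.1 : ℝ) * (1 / (Ideal.absNorm (∏ P ∈ x.2, P) : ℝ)))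
    (fun I => 1 / (Ideal.absNorm I : ℝ)) (fun _ => by positivity) ?_ ?_ ?_
  · rintro ⟨J, s⟩ hx
    obtain ⟨hJ, hs⟩ := Finset.mem_product.mp hx
    obtain ⟨a1, a2, a3⟩ := hFm s hs
    have hJ' := mem_FI.mp hJ
    have hp0 := prod_ne_zero' a1
    obtain ⟨P, hP⟩ := Finset.nonempty_iff_ne_empty.mpr a2
    have h1 := Nat.le_of_dvd (absNorm_pos hp0)
      (Ideal.absNorm_dvd_absNorm_of_le (Ideal.le_of_dvd (Finset.dvd_prod_of_mem (fun Q => Q) hP)))
    have h2 := (mem_QP.mp (a1 hP)).2.1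
    have h3 := absNorm_pos hJ'.2
    rw [mem_filter, mem_FI, mp, map_mul]
    refine ⟨⟨Nat.mul_le_mul hJ'.1 a3, mul_ne_zero hJ'.2 hp0⟩, ?_⟩
    calc X < Ideal.absNorm P := h2
      _ ≤ Ideal.absNorm (∏ P ∈ s, P) := h1
      _ ≤ _ := Nat.le_mul_of_pos_left _ h3
  · rintro ⟨J, s⟩ hx ⟨J', s'⟩ hx' h
    obtain ⟨hJ, hs⟩ := Finset.mem_product.mp hx
    obtain ⟨hJ', hs'⟩ := Finset.mem_product.mp hx'
    have a1 := (hFm s hs).1
    have b1 := (hFm s' hs').1
    have h0 : J * ∏ P ∈ s, P = J' * ∏ P ∈ s', P := h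
    have hss : s = s' := Finset.Subset.antisymm (mp_inj_aux hNX hJ' a1 b1 h0)
      (mp_inj_aux hNX hJ b1 a1 h0.symm)
    rw [hss] at h0
    rw [hss, mul_right_cancel₀ (prod_ne_zero' b1) h0]
  · rintro ⟨J, s⟩ _
    simp only [mp]
    rw [map_mul, Nat.cast_mul, one_div_mul_one_div]

theorem one_add_ge {x : ℝ} (h0 : 0 ≤ x) (h1 : x ≤ 1) : Real.exp (x - x ^ 2) ≤ 1 + x := by
  have h2 : 0 < 1 - x + x ^ 2 := by nlinarith
  have h3 : 1 - x + x ^ 2 ≤ Real.exp (-(x - x ^ 2)) := by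
    have := Real.one_sub_le_exp_neg (x - x ^ 2)
    linarith
  rw [Real.exp_neg] at h3
  have h4 : 0 < Real.exp (x - x ^ 2) := Real.exp_pos _
  have h5 : (1 - x + x ^ 2) * Real.exp (x - x ^ 2) ≤ 1 := by
    rw [← le_div_iff₀ h4, one_div]
    exact h3
  have h6 : (1 + x) * (1 - x + x ^ 2) = 1 + x ^ 3 := by ring
  have h7 : 0 ≤ x ^ 3 := by positivity
  nlinarith

theorem lower_D {X y v : ℕ} (hy : 2 ≤ y) (J0 : ℝ) (hv : J0 * Real.log y ≤ Real.log v)
    (hv1 : 1 ≤ v) :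
    Real.exp (sg K X y - ∑ P ∈ QP K X y, 1 / (Ideal.absNorm P : ℝ) ^ 2) -
      Real.exp (-J0) * Real.exp (3 * sg K X y) - 1 ≤
      ∑ s ∈ (QP K X y).powerset.filter
        (fun s => s ≠ ∅ ∧ Ideal.absNorm (∏ P ∈ s, P) ≤ v),
          1 / (Ideal.absNorm (∏ P ∈ s, P) : ℝ) := by
  set Q := QP K X y with hQ
  have hyr : (2 : ℝ) ≤ y := by exact_mod_cast hy
  have hly : 0 < Real.log y := Real.log_pos (by linarith)
  have hQ2 : ∀ P ∈ Q, (2 : ℝ) ≤ Ideal.absNorm P := by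
    intro P hP
    have h1 := (mem_QP.mp hP).1
    exact_mod_cast two_le_absNorm h1.ne_zero (Ideal.isPrime_of_prime h1)
  set g : Ideal (𝓞 K) → ℝ := fun P => Real.exp (Real.log (Ideal.absNorm P) / Real.log y) with hg
  -- the two products
  have e1 : ∏ P ∈ Q, (1 + 1 / (Ideal.absNorm P : ℝ)) =
      ∑ s ∈ Q.powerset, 1 / (Ideal.absNorm (∏ P ∈ s, P) : ℝ) := by
    rw [Finset.prod_one_add]
    refine Finset.sum_congr rfl fun s _ => ?_
    rw [map_prod, Nat.cast_prod, Finset.prod_div_distrib, Finset.prod_const_one]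
  have e2 : ∏ P ∈ Q, (1 + g P / (Ideal.absNorm P : ℝ)) =
      ∑ s ∈ Q.powerset, (∏ P ∈ s, g P) * (1 / (Ideal.absNorm (∏ P ∈ s, P) : ℝ)) := by
    rw [Finset.prod_one_add]
    refine Finset.sum_congr rfl fun s _ => ?_
    rw [map_prod, Nat.cast_prod, Finset.prod_div_distrib, mul_one_div]
  -- the comparison
  have h1 : ∏ P ∈ Q, (1 + 1 / (Ideal.absNorm P : ℝ)) -
      Real.exp (-J0) * ∏ P ∈ Q, (1 + g P / (Ideal.absNorm P : ℝ)) ≤
      ∑ s ∈ Q.powerset.filter (fun s => Ideal.absNorm (∏ P ∈ s, P) ≤ v),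
        1 / (Ideal.absNorm (∏ P ∈ s, P) : ℝ) := by
    rw [e1, e2, Finset.mul_sum, ← Finset.sum_sub_distrib, Finset.sum_filter]
    refine Finset.sum_le_sum fun s hs => ?_
    rw [mem_powerset] at hs
    have hg0 : 0 ≤ ∏ P ∈ s, g P := Finset.prod_nonneg fun P _ => (Real.exp_pos _).le
    have hn0 : 0 ≤ 1 / (Ideal.absNorm (∏ P ∈ s, P) : ℝ) := by positivity
    split_ifs with hc
    · have : 0 ≤ Real.exp (-J0) * ((∏ P ∈ s, g P) * (1 / (Ideal.absNorm (∏ P ∈ s, P) : ℝ))) := by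
        positivity
      linarith
    · push Not at hc
      have h2 : 1 ≤ Real.exp (-J0) * ∏ P ∈ s, g P := by
        have h3 : ∏ P ∈ s, g P =
            Real.exp (Real.log (Ideal.absNorm (∏ P ∈ s, P)) / Real.log y) := by
          rw [hg, ← Real.exp_sum, map_prod, Nat.cast_prod, Real.log_prod, Finset.sum_div]
          intro P hP
          have := hQ2 P (hs hP)
          positivity
        rw [h3, ← Real.exp_add]
        refine Real.one_le_exp ?_
        have h4 : Real.log v ≤ Real.log (Ideal.absNorm (∏ P ∈ s, P)) :=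
          Real.log_le_log (by exact_mod_cast hv1) (by exact_mod_cast hc.le)
        have h5 : J0 ≤ Real.log (Ideal.absNorm (∏ P ∈ s, P)) / Real.log y := by
          rw [le_div_iff₀ hly]
          linarith
        linarith
      nlinarith
  have h2 : ∑ s ∈ Q.powerset.filter (fun s => Ideal.absNorm (∏ P ∈ s, P) ≤ v),
        1 / (Ideal.absNorm (∏ P ∈ s, P) : ℝ) ≤ 1 + ∑ s ∈ Q.powerset.filter
        (fun s => s ≠ ∅ ∧ Ideal.absNorm (∏ P ∈ s, P) ≤ v),
          1 / (Ideal.absNorm (∏ P ∈ s, P) : ℝ) := by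
    have hsub : Q.powerset.filter (fun s => Ideal.absNorm (∏ P ∈ s, P) ≤ v) ⊆
        insert ∅ (Q.powerset.filter (fun s => s ≠ ∅ ∧ Ideal.absNorm (∏ P ∈ s, P) ≤ v)) := by
      intro s hs
      rw [mem_filter] at hs
      rw [Finset.mem_insert, mem_filter]
      by_cases h : s = ∅
      · exact Or.inl h
      · exact Or.inr ⟨hs.1, h, hs.2⟩
    refine (Finset.sum_le_sum_of_subset_of_nonneg hsub fun _ _ _ => by positivity).trans ?_
    rw [Finset.sum_insert (by simp)]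
    simp
  have h3 : Real.exp (sg K X y - ∑ P ∈ Q, 1 / (Ideal.absNorm P : ℝ) ^ 2) ≤
      ∏ P ∈ Q, (1 + 1 / (Ideal.absNorm P : ℝ)) := by
    rw [sg, ← hQ, ← Finset.sum_sub_distrib, Real.exp_sum]
    refine Finset.prod_le_prod (fun P _ => (Real.exp_pos _).le) fun P hP => ?_
    have h4 := hQ2 P hP
    have h5 := one_add_ge (x := 1 / (Ideal.absNorm P : ℝ)) (by positivity) (by
      rw [div_le_one (by linarith)]; linarith)
    rwa [div_pow, one_pow] at h5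
  have h4 : ∏ P ∈ Q, (1 + g P / (Ideal.absNorm P : ℝ)) ≤ Real.exp (3 * sg K X y) := by
    rw [sg, ← hQ, Finset.mul_sum, Real.exp_sum]
    refine Finset.prod_le_prod (fun P hP => by
      have := hQ2 P hP
      have := Real.exp_pos (Real.log (Ideal.absNorm P) / Real.log y)
      positivity) fun P hP => ?_
    have h5 := hQ2 P hP
    have h6 : g P ≤ 3 := by
      have h7 : Real.log (Ideal.absNorm P) / Real.log y ≤ 1 := by
        rw [div_le_one hly]
        exact Real.log_le_log (by linarith) (by exact_mod_cast (mem_QP.mp hP).2.2)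
      calc g P ≤ Real.exp 1 := Real.exp_le_exp.mpr h7
        _ ≤ 3 := by have := Real.exp_one_lt_d9; linarith
    calc 1 + g P / (Ideal.absNorm P : ℝ) ≤ 1 + 3 / (Ideal.absNorm P : ℝ) := by gcongr
      _ ≤ Real.exp (3 / (Ideal.absNorm P : ℝ)) := by
          have := Real.add_one_le_exp (3 / (Ideal.absNorm P : ℝ))
          linarith
      _ = _ := by rw [mul_one_div]
  have h5 : Real.exp (-J0) * ∏ P ∈ Q, (1 + g P / (Ideal.absNorm P : ℝ)) ≤
      Real.exp (-J0) * Real.exp (3 * sg K X y) := by gcongr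
  linarith

end Pool.Agent.H46CN
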