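import Mathlib

/-! Counting lattice points by means of a fundamental domain. -/

set_option autoImplicit false

namespace Pool.Agent.H46CN

open MeasureTheory Finset
open scoped Classical ENNReal Pointwise

variable {E L : Type*} [MeasurableSpace E] {μ : Measure E} {F A : Set E}
  [AddGroup L] [Countable L] [AddAction L E] [MeasurableSpace L] [MeasurableVAdd L E]
  [VAddInvariantMeasure L E μ]

theorem measure_eq_lintegral (fund : IsAddFundamentalDomain L F μ) (hA : MeasurableSet A) :
    μ A = ∫⁻ y in F, ∑' g : L, (g +ᵥ A).indicator (fun _ => (1 : ℝ≥0∞)) y ∂μ := by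
  have hmeas : ∀ g : L, MeasurableSet (g +ᵥ A) := fun g => hA.const_vadd g
  rw [lintegral_tsum fun g => (measurable_const.indicator (hmeas g)).aemeasurable]
  rw [fund.measure_eq_tsum A]
  congr 1
  ext g
  rw [lintegral_indicator (hmeas g), lintegral_one, Measure.restrict_apply MeasurableSet.univ,
    Set.univ_inter, Measure.restrict_apply (hmeas g)]

/-- every translate of the lattice meets `A` at least `m` times -/
theorem le_measure (fund : IsAddFundamentalDomain L F μ) (hA : MeasurableSet A) (m : ℕ)
    (h : ∀ y : E, ∃ T : Finset L, m ≤ T.card ∧ ∀ g ∈ T, y ∈ g +ᵥ A) :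
    (m : ℝ≥0∞) * μ F ≤ μ A := by
  rw [measure_eq_lintegral fund hA]
  calc (m : ℝ≥0∞) * μ F = ∫⁻ _ in F, (m : ℝ≥0∞) ∂μ := by
        rw [lintegral_const, Measure.restrict_apply MeasurableSet.univ, Set.univ_inter]
    _ ≤ _ := by
        refine lintegral_mono fun y => ?_
        obtain ⟨T, hT, hT2⟩ := h y
        calc (m : ℝ≥0∞) ≤ (T.card : ℝ≥0∞) := by exact_mod_cast hT
          _ = ∑ g ∈ T, (g +ᵥ A).indicator (fun _ => (1 : ℝ≥0∞)) y := by
              rw [Finset.card_eq_sum_ones, Nat.cast_sum]
              refine Finset.sum_congr rfl fun g hg => ?_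
              rw [Set.indicator_of_mem (hT2 g hg), Nat.cast_one]
          _ ≤ _ := ENNReal.sum_le_tsum T

/-- every translate of the lattice meets `A` at most `m` times -/
theorem measure_le (fund : IsAddFundamentalDomain L F μ) (hA : MeasurableSet A) (m : ℕ)
    (h : ∀ y : E, ∀ T : Finset L, (∀ g ∈ T, y ∈ g +ᵥ A) → T.card ≤ m) :
    μ A ≤ (m : ℝ≥0∞) * μ F := by
  rw [measure_eq_lintegral fund hA]
  calc _ ≤ ∫⁻ _ in F, (m : ℝ≥0∞) ∂μ := by
        refine lintegral_mono fun y => ?_
        rw [ENNReal.tsum_eq_iSup_sum]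
        refine iSup_le fun T => ?_
        calc ∑ g ∈ T, (g +ᵥ A).indicator (fun _ => (1 : ℝ≥0∞)) y
            = ∑ g ∈ T.filter (fun g => y ∈ g +ᵥ A), (1 : ℝ≥0∞) := by
              rw [Finset.sum_filter]
              refine Finset.sum_congr rfl fun g _ => ?_
              by_cases hg : y ∈ g +ᵥ A
              · rw [Set.indicator_of_mem hg, if_pos hg]
              · rw [Set.indicator_of_notMem hg, if_neg hg]
          _ = ((T.filter (fun g => y ∈ g +ᵥ A)).card : ℝ≥0∞) := by simp
          _ ≤ (m : ℝ≥0∞) := by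
              have := h y (T.filter (fun g => y ∈ g +ᵥ A)) fun g hg => (mem_filter.mp hg).2
              exact_mod_cast this
    _ = (m : ℝ≥0∞) * μ F := by
        rw [lintegral_const, Measure.restrict_apply MeasurableSet.univ, Set.univ_inter]

end Pool.Agent.H46CN
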