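import Mathlib
import Pool.Agent.H46CN.Unfold

/-! Counting elements of a fractional ideal in a box. -/

set_option autoImplicit false

namespace Pool.Agent.H46CN

open MeasureTheory Finset NumberField NumberField.InfinitePlace Module Submodule
open scoped Classical ENNReal Pointwise NNReal nonZeroDivisors

variable {K : Type} [Field K]

/-- membership in a box in terms of coordinates -/
theorem mem_box {f : InfinitePlace K → ℝ≥0} {y : mixedEmbedding.mixedSpace K} :
    y ∈ mixedEmbedding.convexBodyLT K f ↔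
      (∀ w : {w : InfinitePlace K // IsReal w}, ‖y.1 w‖ < f w) ∧
      (∀ w : {w : InfinitePlace K // IsComplex w}, ‖y.2 w‖ < f w) := by
  simp [Set.mem_prod, Set.mem_pi]

theorem norm_fst (x : K) (w : {w : InfinitePlace K // IsReal w}) :
    ‖(mixedEmbedding K x).1 w‖ = w.1 x := by
  rw [mixedEmbedding.mixedEmbedding_apply_isReal, ← Complex.norm_real, embedding_of_isReal_apply,
    norm_embedding_eq]

theorem norm_snd (x : K) (w : {w : InfinitePlace K // IsComplex w}) :
    ‖(mixedEmbedding K x).2 w‖ = w.1 x := by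
  rw [mixedEmbedding.mixedEmbedding_apply_isComplex, norm_embedding_eq]

variable [NumberField K]

theorem measurable_box (f : InfinitePlace K → ℝ≥0) :
    MeasurableSet (mixedEmbedding.convexBodyLT K f) := by
  refine MeasurableSet.prod ?_ ?_
  · exact MeasurableSet.univ_pi fun _ => measurableSet_ball
  · exact MeasurableSet.univ_pi fun _ => measurableSet_ball

/-- the covering property of small elements that span `K` -/
theorem exists_close {ι : Type} [Fintype ι] (b : ι → K) (hb : Submodule.span ℚ (Set.range b) = ⊤)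
    (y : mixedEmbedding.mixedSpace K) : ∃ c : ι → ℤ,
      (∀ w : {w : InfinitePlace K // IsReal w},
        ‖(y - mixedEmbedding K (∑ i, c i • b i)).1 w‖ ≤ ∑ i, w.1 (b i)) ∧
      (∀ w : {w : InfinitePlace K // IsComplex w},
        ‖(y - mixedEmbedding K (∑ i, c i • b i)).2 w‖ ≤ ∑ i, w.1 (b i)) := by
  have htop : Submodule.span ℝ (Set.range fun i => mixedEmbedding K (b i)) = ⊤ := by
    rw [eq_top_iff, ← (mixedEmbedding.latticeBasis K).span_eq, Submodule.span_le]
    rintro _ ⟨j, rfl⟩
    rw [mixedEmbedding.latticeBasis_apply]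
    have h1 : integralBasis K j ∈ Submodule.span ℚ (Set.range b) := by rw [hb]; trivial
    obtain ⟨c, hc⟩ := (Submodule.mem_span_range_iff_exists_fun ℚ).mp h1
    rw [SetLike.mem_coe, Submodule.mem_span_range_iff_exists_fun]
    refine ⟨fun i => (c i : ℝ), ?_⟩
    rw [← hc, map_sum]
    refine Finset.sum_congr rfl fun i _ => ?_
    ext w
    · rw [mixedEmbedding.mixedEmbedding_apply_isReal, Rat.smul_def, map_mul, map_ratCast,
        Prod.smul_fst, Pi.smul_apply, mixedEmbedding.mixedEmbedding_apply_isReal, smul_eq_mul]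
    · rw [mixedEmbedding.mixedEmbedding_apply_isComplex, Rat.smul_def, map_mul, map_ratCast,
        Prod.smul_snd, Pi.smul_apply, mixedEmbedding.mixedEmbedding_apply_isComplex,
        Complex.real_smul, Complex.ofReal_ratCast]
  have hy : y ∈ Submodule.span ℝ (Set.range fun i => mixedEmbedding K (b i)) := by
    rw [htop]; trivial
  obtain ⟨c, hc⟩ := (Submodule.mem_span_range_iff_exists_fun ℝ).mp hy
  have hdiff : y - mixedEmbedding K (∑ i, ⌊c i⌋ • b i) =
      ∑ i, (c i - ⌊c i⌋) • mixedEmbedding K (b i) := by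
    rw [← hc, map_sum, ← Finset.sum_sub_distrib]
    refine Finset.sum_congr rfl fun i _ => ?_
    rw [sub_smul, map_zsmul]
    congr 1
    ext w <;> simp
  refine ⟨fun i => ⌊c i⌋, ?_, ?_⟩
  · intro w
    rw [hdiff, Prod.fst_sum, Finset.sum_apply]
    refine (norm_sum_le _ _).trans (Finset.sum_le_sum fun i _ => ?_)
    rw [Prod.smul_fst, Pi.smul_apply, norm_smul, norm_fst, Real.norm_eq_abs,
      abs_of_nonneg (by linarith [Int.floor_le (c i)])]
    have h1 : c i - ⌊c i⌋ ≤ 1 := by linarith [Int.lt_floor_add_one (c i)]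
    exact mul_le_of_le_one_left (apply_nonneg _ _) h1
  · intro w
    rw [hdiff, Prod.snd_sum, Finset.sum_apply]
    refine (norm_sum_le _ _).trans (Finset.sum_le_sum fun i _ => ?_)
    rw [Prod.smul_snd, Pi.smul_apply, norm_smul, norm_snd, Real.norm_eq_abs,
      abs_of_nonneg (by linarith [Int.floor_le (c i)])]
    have h1 : c i - ⌊c i⌋ ≤ 1 := by linarith [Int.lt_floor_add_one (c i)]
    exact mul_le_of_le_one_left (apply_nonneg _ _) h1

variable (I : (FractionalIdeal (𝓞 K)⁰ K)ˣ)

/-- the volume of a fundamental domain of a fractional ideal -/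
noncomputable def covol : ℝ≥0∞ :=
  volume (ZSpan.fundamentalDomain (mixedEmbedding.fractionalIdealLatticeBasis K I))

/-- upper bound for the number of elements of a fractional ideal in a box -/
theorem card_mul_covol_le {ι : Type} [Fintype ι] (b : ι → K)
    (hb : Submodule.span ℚ (Set.range b) = ⊤) (hbI : ∀ i, b i ∈ (I : FractionalIdeal (𝓞 K)⁰ K))
    {ρ r f : InfinitePlace K → ℝ≥0} (hr : ∀ w, ∑ i, w (b i) ≤ r w) (hf : ∀ w, ρ w + r w ≤ f w)
    (T : Finset K) (hT : ∀ x ∈ T, x ∈ (I : FractionalIdeal (𝓞 K)⁰ K) ∧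
      ∀ w : InfinitePlace K, w x < ρ w) :
    (T.card : ℝ≥0∞) * covol I ≤ volume (mixedEmbedding.convexBodyLT K f) := by
  have h_fund := ZSpan.isAddFundamentalDomain' (mixedEmbedding.fractionalIdealLatticeBasis K I) volume
  have : Countable (span ℤ (Set.range (mixedEmbedding.fractionalIdealLatticeBasis K I))).toAddSubgroup := by
    change Countable (span ℤ (Set.range (mixedEmbedding.fractionalIdealLatticeBasis K I)))
    infer_instance
  refine le_measure h_fund (measurable_box f) T.card ?_
  intro y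
  obtain ⟨c, hc1, hc2⟩ := exists_close b hb y
  set z : K := ∑ i, c i • b i with hz
  have hzI : z ∈ (I : FractionalIdeal (𝓞 K)⁰ K) := by
    rw [← FractionalIdeal.mem_coe]
    exact Submodule.sum_mem _ fun i _ => zsmul_mem (FractionalIdeal.mem_coe.mpr (hbI i)) _
  have hmem : ∀ x ∈ T, mixedEmbedding K (z - x) ∈
      (span ℤ (Set.range (mixedEmbedding.fractionalIdealLatticeBasis K I))).toAddSubgroup := by
    intro x hx
    rw [mem_toAddSubgroup, mixedEmbedding.mem_span_fractionalIdealLatticeBasis]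
    exact ⟨z - x, Submodule.sub_mem _ hzI (hT x hx).1, rfl⟩
  refine ⟨T.attach.image fun x => ⟨mixedEmbedding K (z - x.1), hmem x.1 x.2⟩, ?_, ?_⟩
  · rw [Finset.card_image_of_injective, Finset.card_attach]
    intro x x' h
    have h1 := congrArg Subtype.val h
    have h2 := mixedEmbedding_injective K h1
    exact Subtype.ext (by linear_combination -h2)
  · intro g hg
    rw [Finset.mem_image] at hg
    obtain ⟨x, _, rfl⟩ := hg
    rw [Set.mem_vadd_set_iff_neg_vadd_mem]
    have h1 : (-(⟨mixedEmbedding K (z - x.1), hmem x.1 x.2⟩ :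
        (span ℤ (Set.range (mixedEmbedding.fractionalIdealLatticeBasis K I))).toAddSubgroup)) +ᵥ y =
        (y - mixedEmbedding K z) + mixedEmbedding K x.1 := by
      rw [AddSubgroup.vadd_def, vadd_eq_add]
      simp only [AddSubgroup.coe_neg, map_sub]
      abel
    rw [h1, mem_box]
    have hx := (hT x.1 x.2).2
    constructor
    · intro w
      rw [Prod.fst_add, Pi.add_apply]
      calc _ ≤ ‖(y - mixedEmbedding K z).1 w‖ + ‖(mixedEmbedding K x.1).1 w‖ := norm_add_le _ _
        _ < r w + ρ w := by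
            rw [norm_fst]
            exact add_lt_add_of_le_of_lt ((hc1 w).trans (hr w)) (hx w)
        _ ≤ f w := by rw [add_comm]; exact_mod_cast hf w
    · intro w
      rw [Prod.snd_add, Pi.add_apply]
      calc _ ≤ ‖(y - mixedEmbedding K z).2 w‖ + ‖(mixedEmbedding K x.1).2 w‖ := norm_add_le _ _
        _ < r w + ρ w := by
            rw [norm_snd]
            exact add_lt_add_of_le_of_lt ((hc2 w).trans (hr w)) (hx w)
        _ ≤ f w := by rw [add_comm]; exact_mod_cast hf w

/-- lower bound for the number of elements of a fractional ideal in a box -/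
theorem exists_card_gt {g f : InfinitePlace K → ℝ≥0} (hfg : ∀ w, g w + g w ≤ f w) (m : ℕ)
    (h : (m : ℝ≥0∞) * covol I < volume (mixedEmbedding.convexBodyLT K g)) :
    ∃ T : Finset K, m < T.card ∧ ∀ x ∈ T, x ∈ (I : FractionalIdeal (𝓞 K)⁰ K) ∧
      ∀ w : InfinitePlace K, w x < f w := by
  by_contra hcon
  push Not at hcon
  apply absurd h
  rw [not_lt]
  have h_fund := ZSpan.isAddFundamentalDomain' (mixedEmbedding.fractionalIdealLatticeBasis K I) volume
  have : Countable (span ℤ (Set.range (mixedEmbedding.fractionalIdealLatticeBasis K I))).toAddSubgroup := by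
    change Countable (span ℤ (Set.range (mixedEmbedding.fractionalIdealLatticeBasis K I)))
    infer_instance
  refine measure_le h_fund (measurable_box g) m ?_
  intro y T' hT'
  by_contra hlt
  push Not at hlt
  have hne : T'.Nonempty := Finset.card_pos.mp (by omega)
  obtain ⟨g0, hg0⟩ := hne
  have hmem : ∀ a : (span ℤ (Set.range (mixedEmbedding.fractionalIdealLatticeBasis K I))).toAddSubgroup,
      ∃ x : K, x ∈ (I : FractionalIdeal (𝓞 K)⁰ K) ∧ mixedEmbedding K x = (a : mixedEmbedding.mixedSpace K) := by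
    rintro ⟨a, ha⟩
    rw [mem_toAddSubgroup, mixedEmbedding.mem_span_fractionalIdealLatticeBasis] at ha
    obtain ⟨x, hx, rfl⟩ := ha
    exact ⟨x, hx, rfl⟩
  choose φ hφI hφ using hmem
  obtain ⟨x, hx, hx2⟩ := hcon (T'.image fun a => φ (a - g0)) (by
    rw [Finset.card_image_of_injective]
    · exact hlt
    · intro a a' h1
      have h2 : ((a - g0 : (span ℤ (Set.range
          (mixedEmbedding.fractionalIdealLatticeBasis K I))).toAddSubgroup) :
          mixedEmbedding.mixedSpace K) = ((a' - g0 : (span ℤ (Set.range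
          (mixedEmbedding.fractionalIdealLatticeBasis K I))).toAddSubgroup) :
          mixedEmbedding.mixedSpace K) := by
        rw [← hφ, ← hφ]
        exact congrArg _ h1
      exact sub_left_injective (Subtype.ext h2))
  rw [Finset.mem_image] at hx
  obtain ⟨a, ha, rfl⟩ := hx
  obtain ⟨w, hw⟩ := hx2 (hφI _)
  have ha1 := hT' a ha
  have ha2 := hT' g0 hg0
  rw [Set.mem_vadd_set_iff_neg_vadd_mem, mem_box] at ha1 ha2
  have hfw : (g w : ℝ) + g w ≤ f w := by exact_mod_cast hfg w
  have hval : mixedEmbedding K (φ (a - g0)) = (-g0 +ᵥ y) - (-a +ᵥ y) := by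
    rw [hφ, AddSubgroup.vadd_def, AddSubgroup.vadd_def, vadd_eq_add, vadd_eq_add]
    simp only [AddSubgroup.coe_neg, AddSubgroup.coe_sub]
    abel
  have hfin : w (φ (a - g0)) < f w := by
    rcases isReal_or_isComplex w with hw' | hw'
    · have h1 := norm_fst (φ (a - g0)) ⟨w, hw'⟩
      rw [hval, Prod.fst_sub, Pi.sub_apply] at h1
      have h2 := norm_sub_le ((-g0 +ᵥ y).1 ⟨w, hw'⟩) ((-a +ᵥ y).1 ⟨w, hw'⟩)
      have h3 := ha1.1 ⟨w, hw'⟩
      have h4 := ha2.1 ⟨w, hw'⟩
      simp only at h1 h3 h4
      linarith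
    · have h1 := norm_snd (φ (a - g0)) ⟨w, hw'⟩
      rw [hval, Prod.snd_sub, Pi.sub_apply] at h1
      have h2 := norm_sub_le ((-g0 +ᵥ y).2 ⟨w, hw'⟩) ((-a +ᵥ y).2 ⟨w, hw'⟩)
      have h3 := ha1.2 ⟨w, hw'⟩
      have h4 := ha2.2 ⟨w, hw'⟩
      simp only at h1 h3 h4
      linarith
  exact absurd hfin (not_lt.mpr hw)

end Pool.Agent.H46CN
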