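import Pool.Agent.H46CN.Lower
import Pool.Agent.Helper923.HMertens

/-! Many rational primes do not split completely in a number field of small discriminant. -/

set_option autoImplicit false

namespace Pool.Agent.H46CN

open Finset NumberField Pool.Agent.TH847.LS Pool.Agent.TH847.LG
open scoped Classical nonZeroDivisors

variable {K : Type} [Field K] [NumberField K]

/-- upper bound for the sum over prime ideals -/
theorem sg_le {d : ℕ} (hd : Module.finrank ℚ K = d) (X y : ℕ) :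
    sg K X y ≤ d * (∑ p ∈ (Finset.Ioc X y).filter Nat.Prime, 1 / (p : ℝ) + 1) := by
  set T := (Finset.Icc 1 y).filter Nat.Prime with hT
  have h1 : sg K X y = ∑ P ∈ PI K y, if X < Ideal.absNorm P then 1 / (Ideal.absNorm P : ℝ) else 0 := by
    rw [sg, QP, Finset.sum_filter]
  rw [h1]
  refine (Pool.Agent.TH847.LG.sum_fiber hd y _ (fun p => (if X < p then 1 / (p : ℝ) else 0) +
      1 / (p : ℝ) ^ 2) T ?_ ?_).trans ?_
  · intro p _
    split_ifs <;> positivity
  · intro P hP
    rw [mem_PI] at hP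
    obtain ⟨k, hk, hp, he, _⟩ := norm_pow hP.1.2 hP.2
    set p := (Ideal.absNorm P).minFac with hpdef
    have hpN : p ≤ y := le_trans (by conv_rhs => rw [he]
                                     exact Nat.le_self_pow hk.ne' _) hP.1.1
    have hp2 : (2 : ℝ) ≤ p := by exact_mod_cast hp.two_le
    constructor
    · rw [hT, mem_filter, mem_Icc]
      exact ⟨⟨hp.one_lt.le, hpN⟩, hp⟩
    · rcases Nat.lt_or_ge 1 k with h1 | h1
      · have h5 : 1 / (Ideal.absNorm P : ℝ) ≤ 1 / (p : ℝ) ^ 2 := by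
          have : (p : ℝ) ^ 2 ≤ Ideal.absNorm P := by
            conv_rhs => rw [he]
            exact_mod_cast Nat.pow_le_pow_right hp.pos h1
          gcongr
        have h6 : (0 : ℝ) ≤ if X < p then 1 / (p : ℝ) else 0 := by
          split_ifs <;> positivity
        split_ifs at h6 ⊢ <;> first | linarith | (have : 0 ≤ 1 / (p : ℝ) ^ 2 := by positivity
                                                  linarith)
      · have hk1 : k = 1 := by omega
        rw [hk1, pow_one] at he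
        rw [he]
        have : 0 ≤ 1 / (p : ℝ) ^ 2 := by positivity
        linarith
  · have h4 : ∑ p ∈ T, 1 / (p : ℝ) ^ 2 ≤ 1 := sum_inv_sq T fun p hp => by
      rw [hT, mem_filter] at hp
      exact hp.2.two_le
    have h5 : ∑ p ∈ T, (if X < p then 1 / (p : ℝ) else 0) =
        ∑ p ∈ (Finset.Ioc X y).filter Nat.Prime, 1 / (p : ℝ) := by
      rw [← Finset.sum_filter]
      congr 1
      ext p
      rw [mem_filter, hT, mem_filter, mem_filter, mem_Icc, mem_Ioc]
      constructor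
      · rintro ⟨⟨⟨_, h1⟩, h2⟩, h3⟩
        exact ⟨⟨h3, h1⟩, h2⟩
      · rintro ⟨⟨h1, h2⟩, h3⟩
        exact ⟨⟨⟨h3.one_lt.le, h2⟩, h3⟩, h1⟩
    rw [Finset.sum_add_distrib, h5]
    gcongr

theorem sq_le {d : ℕ} (hd : Module.finrank ℚ K = d) (X y : ℕ) :
    ∑ P ∈ QP K X y, 1 / (Ideal.absNorm P : ℝ) ^ 2 ≤ (d : ℝ) := by
  set T := (Finset.Icc 1 y).filter Nat.Prime with hT
  have h1 : ∑ P ∈ QP K X y, 1 / (Ideal.absNorm P : ℝ) ^ 2 ≤
      ∑ P ∈ PI K y, 1 / (Ideal.absNorm P : ℝ) ^ 2 := by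
    refine Finset.sum_le_sum_of_subset_of_nonneg ?_ fun _ _ _ => by positivity
    rw [QP]
    exact Finset.filter_subset _ _
  refine h1.trans ((Pool.Agent.TH847.LG.sum_fiber hd y _ (fun p => 1 / (p : ℝ) ^ 2) T ?_ ?_).trans ?_)
  · intro p _
    positivity
  · intro P hP
    rw [mem_PI] at hP
    obtain ⟨k, hk, hp, he, _⟩ := norm_pow hP.1.2 hP.2
    set p := (Ideal.absNorm P).minFac with hpdef
    have hpN : p ≤ y := le_trans (by conv_rhs => rw [he]
                                     exact Nat.le_self_pow hk.ne' _) hP.1.1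
    have hp2 : (2 : ℝ) ≤ p := by exact_mod_cast hp.two_le
    have hle : (p : ℝ) ≤ Ideal.absNorm P := by
      conv_rhs => rw [he]
      exact_mod_cast Nat.le_self_pow hk.ne' _
    constructor
    · rw [hT, mem_filter, mem_Icc]
      exact ⟨⟨hp.one_lt.le, hpN⟩, hp⟩
    · gcongr
  · have h4 : ∑ p ∈ T, 1 / (p : ℝ) ^ 2 ≤ 1 := sum_inv_sq T fun p hp => by
      rw [hT, mem_filter] at hp
      exact hp.2.two_le
    calc (d : ℝ) * ∑ p ∈ T, 1 / (p : ℝ) ^ 2 ≤ d * 1 := by gcongr
      _ = d := mul_one _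

/-- `p` splits completely: there are as many primes of norm `p` as the degree -/
def FullySplit (K : Type) [Field K] [NumberField K] (p : ℕ) : Prop :=
  Module.finrank ℚ K ≤ ((PI K p).filter (fun P => Ideal.absNorm P = p)).card

theorem sg_ge {d : ℕ} (hd : Module.finrank ℚ K = d) (X y : ℕ) :
    (d : ℝ) * ∑ p ∈ (Finset.Ioc X y).filter (fun p => p.Prime ∧ FullySplit K p), 1 / (p : ℝ) ≤
      sg K X y := by
  set S := (Finset.Ioc X y).filter (fun p => p.Prime ∧ FullySplit K p) with hS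
  have hdisj : ∀ p ∈ S, ∀ q ∈ S, p ≠ q →
      Disjoint ((PI K p).filter (fun P => Ideal.absNorm P = p))
        ((PI K q).filter (fun P => Ideal.absNorm P = q)) := by
    intro p _ q _ hpq
    rw [Finset.disjoint_left]
    intro P h1 h2
    rw [mem_filter] at h1 h2
    exact hpq (h1.2.symm.trans h2.2)
  have hsub : S.biUnion (fun p => (PI K p).filter (fun P => Ideal.absNorm P = p)) ⊆ QP K X y := by
    intro P hP
    rw [mem_biUnion] at hP
    obtain ⟨p, hp, hP⟩ := hP
    rw [hS, mem_filter, mem_Ioc] at hp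
    rw [mem_filter, mem_PI] at hP
    rw [mem_QP]
    refine ⟨prime_of hP.1.1.2 hP.1.2, ?_, ?_⟩
    · rw [hP.2]; exact hp.1.1
    · rw [hP.2]; exact hp.1.2
  calc (d : ℝ) * ∑ p ∈ S, 1 / (p : ℝ) = ∑ p ∈ S, (d : ℝ) * (1 / (p : ℝ)) := Finset.mul_sum _ _ _
    _ ≤ ∑ p ∈ S, ∑ P ∈ (PI K p).filter (fun P => Ideal.absNorm P = p),
          1 / (Ideal.absNorm P : ℝ) := by
        refine Finset.sum_le_sum fun p hp => ?_
        rw [hS, mem_filter] at hp
        have h1 : d ≤ ((PI K p).filter (fun P => Ideal.absNorm P = p)).card := by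
          have := hp.2.2
          rw [FullySplit, hd] at this
          exact this
        calc (d : ℝ) * (1 / (p : ℝ)) ≤
            (((PI K p).filter (fun P => Ideal.absNorm P = p)).card : ℝ) * (1 / (p : ℝ)) := by
              have : (d : ℝ) ≤ (((PI K p).filter (fun P => Ideal.absNorm P = p)).card : ℝ) := by
                exact_mod_cast h1
              gcongr
          _ = ∑ P ∈ (PI K p).filter (fun P => Ideal.absNorm P = p), 1 / (p : ℝ) := by
              rw [Finset.sum_const, nsmul_eq_mul]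
          _ = _ := by
              refine Finset.sum_congr rfl fun P hP => ?_
              rw [mem_filter] at hP
              rw [hP.2]
    _ = ∑ P ∈ S.biUnion (fun p => (PI K p).filter (fun P => Ideal.absNorm P = p)),
          1 / (Ideal.absNorm P : ℝ) := by
        rw [Finset.sum_biUnion]
        intro p hp q hq hpq
        exact hdisj p hp q hq hpq
    _ ≤ _ := by
        rw [sg]
        exact Finset.sum_le_sum_of_subset_of_nonneg hsub fun _ _ _ => by positivity

theorem one_le_SK {N : ℕ} (hN : 1 ≤ N) : 1 ≤ SK K N := by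
  unfold SK
  have hmem : (⊤ : Ideal (𝓞 K)) ∈ FI K N := by
    rw [mem_FI, Ideal.absNorm_top]
    exact ⟨hN, top_ne_bot⟩
  calc (1 : ℝ) = 1 / (Ideal.absNorm (⊤ : Ideal (𝓞 K)) : ℝ) := by rw [Ideal.absNorm_top]; simp
    _ ≤ _ := Finset.single_le_sum (f := fun I : Ideal (𝓞 K) => 1 / (Ideal.absNorm I : ℝ))
        (fun _ _ => by positivity) hmem

theorem log_X_le {d N : ℕ} (hd : 1 ≤ d) (hN : 1 ≤ N) :
    Real.log ((N * (d * (2 * N) ^ d) ^ d : ℕ) : ℝ) ≤ (1 + 2 * d ^ 2) * (1 + Real.log N) := by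
  have hNr : (1 : ℝ) ≤ N := by exact_mod_cast hN
  have hdr : (1 : ℝ) ≤ d := by exact_mod_cast hd
  have hlN : 0 ≤ Real.log N := Real.log_nonneg hNr
  have hld : Real.log d ≤ d := (Real.log_le_sub_one_of_pos (by linarith)).trans (by linarith)
  have hl2 : Real.log 2 ≤ 1 := by have := Real.log_two_lt_d9; linarith
  push_cast
  rw [Real.log_mul (by positivity) (by positivity), Real.log_pow,
    Real.log_mul (by positivity) (by positivity), Real.log_pow,
    Real.log_mul (by norm_num) (by positivity)]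
  have h1 : (d : ℝ) * (Real.log d + d * (Real.log 2 + Real.log N)) ≤
      d * (d + d * (1 + Real.log N)) := by gcongr
  nlinarith [mul_nonneg (mul_nonneg (by linarith : (0 : ℝ) ≤ d) (by linarith : (0 : ℝ) ≤ d)) hlN]

/-- the growth inequality -/
theorem growth (d : ℕ) (hd1 : 1 ≤ d) : ∃ C : ℝ, 1 ≤ C ∧
    ∀ (K : Type) [Field K] [NumberField K], Module.finrank ℚ K = d → ∀ N B J : ℕ,
    2 ^ (d + 2) * √|(discr K : ℝ)| ≤ N → 1 ≤ B → 1 ≤ J →
    3 * sg K (N * (d * (2 * N) ^ d) ^ d) ((N * (d * (2 * N) ^ d) ^ d) ^ B) ≤ J →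
    Real.exp (sg K (N * (d * (2 * N) ^ d) ^ d) ((N * (d * (2 * N) ^ d) ^ d) ^ B)) ≤
      C * J * B := by
  obtain ⟨C1, hC10, hC1⟩ := TS_le d hd1
  refine ⟨Real.exp d * (C1 * (1 + (1 + 2 * d ^ 2)) + 2), ?_, ?_⟩
  · have h1 : 1 ≤ Real.exp d := Real.one_le_exp (by positivity)
    have h2 : 0 ≤ C1 * (1 + (1 + 2 * (d : ℝ) ^ 2)) := by positivity
    nlinarith
  intro K _ _ hd N B J hN hB hJ hσJ
  set X := N * (d * (2 * N) ^ d) ^ d with hX
  set σ := sg K X (X ^ B) with hσ
  have hD0 : 0 < √|(discr K : ℝ)| := by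
    apply Real.sqrt_pos.mpr
    have : (discr K : ℝ) ≠ 0 := by exact_mod_cast discr_ne_zero K
    positivity
  have hNr : (0 : ℝ) < N := lt_of_lt_of_le (by positivity) hN
  have hN0 : 0 < N := by exact_mod_cast hNr
  have hpos : 0 < d * (2 * N) ^ d := by positivity
  have hNX : N ≤ X := by
    rw [hX]
    exact Nat.le_mul_of_pos_right _ (by positivity)
  have hX2 : 2 ≤ X := by
    rw [hX]
    calc 2 = 1 * (1 * (2 * 1) ^ 1) ^ 1 := by norm_num
      _ ≤ N * (d * (2 * N) ^ d) ^ d := by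
          refine Nat.mul_le_mul hN0 ?_
          calc (1 * (2 * 1) ^ 1) ^ 1 ≤ (d * (2 * N) ^ d) ^ 1 := by
                gcongr
                · omega
                · exact hN0
            _ ≤ (d * (2 * N) ^ d) ^ d := Nat.pow_le_pow_right hpos hd1
  have hX0 : 0 < X := by omega
  set y := X ^ B with hy
  have hy2 : 2 ≤ y := hX2.trans (Nat.le_self_pow (by omega) X)
  set v := y ^ J with hv
  have hv1 : 1 ≤ v := Nat.one_le_pow _ _ (by omega)
  have h1 := lower_D (K := K) (X := X) (y := y) (v := v) hy2 (J : ℝ) (by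
    rw [hv]; push_cast; rw [Real.log_pow]) hv1
  have h2 := lower_A (K := K) (N := N) (X := X) (y := y) (v := v) hNX
  set S := ∑ s ∈ (QP K X y).powerset.filter
      (fun s => s ≠ ∅ ∧ Ideal.absNorm (∏ P ∈ s, P) ≤ v),
        1 / (Ideal.absNorm (∏ P ∈ s, P) : ℝ) with hS
  have h3 := hC1 K hd N X (N * v) hN le_rfl (Nat.mul_pos hN0 (by omega))
  have hSK := one_le_SK (K := K) (N := N) hN0
  have hlN : 0 ≤ Real.log N := Real.log_nonneg (by exact_mod_cast hN0)
  have hlX : Real.log X ≤ (1 + 2 * d ^ 2) * (1 + Real.log N) := by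
    rw [hX]
    exact log_X_le hd1 hN0
  have hJr : (1 : ℝ) ≤ J := by exact_mod_cast hJ
  have hBr : (1 : ℝ) ≤ B := by exact_mod_cast hB
  have hlw : 1 + Real.log ((N * v : ℕ) : ℝ) ≤
      (1 + J * B * (1 + 2 * d ^ 2)) * (1 + Real.log N) := by
    rw [hv, hy]
    push_cast
    have hXr : (0 : ℝ) < X := by exact_mod_cast hX0
    rw [Real.log_mul (by positivity) (by positivity), Real.log_pow, Real.log_pow]
    have h4 : (J : ℝ) * (B * Real.log X) ≤ J * (B * ((1 + 2 * d ^ 2) * (1 + Real.log N))) := by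
      gcongr
    linarith
  have h4 : S ≤ C1 * (1 + J * B * (1 + 2 * d ^ 2)) := by
    have h5 : (SK K N * S) * (1 + Real.log N) ≤
        (C1 * (1 + J * B * (1 + 2 * d ^ 2))) * (SK K N * (1 + Real.log N)) := by
      calc (SK K N * S) * (1 + Real.log N) ≤ TS K X (N * v) * (1 + Real.log N) := by gcongr
        _ ≤ C1 * (1 + Real.log ((N * v : ℕ) : ℝ)) * SK K N := h3
        _ ≤ C1 * ((1 + J * B * (1 + 2 * d ^ 2)) * (1 + Real.log N)) * SK K N := by gcongr
        _ = _ := by ring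
    have h6 : 0 < SK K N * (1 + Real.log N) := by positivity
    have h7 : (SK K N * S) * (1 + Real.log N) = S * (SK K N * (1 + Real.log N)) := by ring
    rw [h7] at h5
    exact le_of_mul_le_mul_right h5 h6
  have h5 : S ≤ C1 * (1 + (1 + 2 * d ^ 2)) * (J * B) := by
    refine h4.trans ?_
    have h6 : (1 : ℝ) ≤ J * B := one_le_mul_of_one_le_of_one_le hJr hBr
    calc C1 * (1 + (J : ℝ) * B * (1 + 2 * d ^ 2)) ≤
        C1 * ((J : ℝ) * B + (J : ℝ) * B * (1 + 2 * d ^ 2)) := by gcongr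
      _ = _ := by ring
  have h6 := sq_le hd X y
  set σ2 := ∑ P ∈ QP K X y, 1 / (Ideal.absNorm P : ℝ) ^ 2 with hσ2
  have h7 : Real.exp (-(J : ℝ)) * Real.exp (3 * sg K X y) ≤ 1 := by
    rw [← Real.exp_add]
    refine Real.exp_le_one_iff.mpr ?_
    linarith
  have h8 : Real.exp (σ - σ2) ≤ (C1 * (1 + (1 + 2 * d ^ 2)) + 2) * (J * B) := by
    have h9 : (1 : ℝ) ≤ J * B := one_le_mul_of_one_le_of_one_le hJr hBr
    nlinarith
  calc Real.exp σ = Real.exp σ2 * Real.exp (σ - σ2) := by rw [← Real.exp_add]; ring_nf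
    _ ≤ Real.exp d * ((C1 * (1 + (1 + 2 * d ^ 2)) + 2) * (J * B)) := by gcongr
    _ = _ := by ring

/-- the non-split primes in a range -/
noncomputable def NS (K : Type) [Field K] [NumberField K] (X y : ℕ) : Finset ℕ :=
  (Finset.Ioc X y).filter (fun p => p.Prime ∧ ¬ FullySplit K p)

/-- the sum over the non-split primes is large -/
theorem nonsplit_sum (d : ℕ) (hd2 : 2 ≤ d) : ∃ B : ℕ, 1 ≤ B ∧
    ∀ (K : Type) [Field K] [NumberField K], Module.finrank ℚ K = d → ∀ N : ℕ,
    2 ^ (d + 2) * √|(discr K : ℝ)| ≤ N →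
    1 ≤ ∑ p ∈ NS K (N * (d * (2 * N) ^ d) ^ d) ((N * (d * (2 * N) ^ d) ^ d) ^ B), 1 / (p : ℝ) := by
  obtain ⟨C2, hC21, hC2⟩ := growth d (by omega)
  obtain ⟨CM, hCM0, hCM⟩ := Pool.Agent.Helper923.HMertens.mertens_ratio
  have hl2 : 0 < Real.log 2 := Real.log_pos (by norm_num)
  set C' : ℝ := CM / Real.log 2 with hC'
  have hC'0 : 0 ≤ C' := by positivity
  have hdr : (2 : ℝ) ≤ d := by exact_mod_cast hd2
  set E : ℝ := C2 * Real.exp (2 * d + d * C') with hE
  have hE1 : 1 ≤ E := by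
    have : 1 ≤ Real.exp (2 * d + d * C') := Real.one_le_exp (by positivity)
    nlinarith
  -- the choice of `m`
  set m : ℕ := ⌈E * (3 * d * (2 + C' + 1) + 2)⌉₊ with hm
  have hmE : E * (3 * d * (2 + C' + 1) + 2) ≤ m := Nat.le_ceil _
  have hm1r : (1 : ℝ) ≤ m := by
    have h0 : (0 : ℝ) ≤ 3 * d * (2 + C' + 1) := by positivity
    have : (1 : ℝ) ≤ 3 * d * (2 + C' + 1) + 2 := by linarith
    have h1 : (1 : ℝ) ≤ E * (3 * d * (2 + C' + 1) + 2) := one_le_mul_of_one_le_of_one_le hE1 this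
    linarith
  have hm1 : 1 ≤ m := by exact_mod_cast hm1r
  refine ⟨m ^ 2, Nat.one_le_pow _ _ (by omega), ?_⟩
  intro K _ _ hd N hN
  set X := N * (d * (2 * N) ^ d) ^ d with hX
  set B := m ^ 2 with hB
  have hD0 : 0 < √|(discr K : ℝ)| := by
    apply Real.sqrt_pos.mpr
    have : (discr K : ℝ) ≠ 0 := by exact_mod_cast discr_ne_zero K
    positivity
  have hNr : (0 : ℝ) < N := lt_of_lt_of_le (by positivity) hN
  have hN0 : 0 < N := by exact_mod_cast hNr
  have hpos : 0 < d * (2 * N) ^ d := by positivity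
  have hX2 : 2 ≤ X := by
    rw [hX]
    have h1 : 2 ≤ d * (2 * N) ^ d := by
      calc 2 ≤ d := hd2
        _ ≤ d * (2 * N) ^ d := Nat.le_mul_of_pos_right _ (by positivity)
    calc 2 ≤ d * (2 * N) ^ d := h1
      _ ≤ (d * (2 * N) ^ d) ^ d := Nat.le_self_pow (by omega) _
      _ ≤ _ := Nat.le_mul_of_pos_left _ hN0
  have hB1 : 1 ≤ B := Nat.one_le_pow _ _ (by omega)
  have hXy : X ≤ X ^ B := Nat.le_self_pow (by omega) X
  have hXr : (2 : ℝ) ≤ X := by exact_mod_cast hX2
  have hlX : Real.log 2 ≤ Real.log X := Real.log_le_log (by norm_num) hXr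
  have hBr : (1 : ℝ) ≤ B := by exact_mod_cast hB1
  have hlB : 0 ≤ Real.log B := Real.log_nonneg hBr
  have hlBm : Real.log B ≤ 2 * m := by
    rw [hB]; push_cast; rw [Real.log_pow]
    have := Real.log_le_sub_one_of_pos (show (0 : ℝ) < m by linarith)
    push_cast
    linarith
  -- the Mertens sum
  set M := ∑ p ∈ (Finset.Ioc X (X ^ B)).filter Nat.Prime, 1 / (p : ℝ) with hM
  have hMe := hCM X (X ^ B) hX2 hXy
  have hratio : Real.log (Real.log ((X ^ B : ℕ) : ℝ) / Real.log X) = Real.log B := by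
    push_cast
    rw [Real.log_pow, mul_div_assoc, div_self (by linarith), mul_one]
  rw [hratio, ← hM] at hMe
  have hMe' : |M - Real.log B| ≤ C' := hMe.trans (by rw [hC']; gcongr)
  obtain ⟨hM1, hM2⟩ := abs_le.mp hMe'
  set σ := sg K X (X ^ B) with hσ
  have hσu : σ ≤ d * (M + 1) := sg_le hd X (X ^ B)
  have hσl := sg_ge hd X (X ^ B)
  rw [← hσ] at hσl
  set ν := ∑ p ∈ NS K X (X ^ B), 1 / (p : ℝ) with hν
  have hsplit : M = ∑ p ∈ (Finset.Ioc X (X ^ B)).filter (fun p => p.Prime ∧ FullySplit K p),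
      1 / (p : ℝ) + ν := by
    rw [hM, hν, NS, ← Finset.sum_filter_add_sum_filter_not
      ((Finset.Ioc X (X ^ B)).filter Nat.Prime) (fun p => FullySplit K p),
      Finset.filter_filter, Finset.filter_filter]
  have hσl' : d * (M - ν) ≤ σ := by
    have : M - ν = ∑ p ∈ (Finset.Ioc X (X ^ B)).filter (fun p => p.Prime ∧ FullySplit K p),
      1 / (p : ℝ) := by linarith
    rw [this]
    exact hσl
  -- the choice of `J`
  set J : ℕ := ⌈3 * d * (Real.log B + C' + 1)⌉₊ + 1 with hJ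
  have hJ1 : 3 * d * (Real.log B + C' + 1) ≤ J := by
    rw [hJ]; push_cast
    have := Nat.le_ceil (3 * d * (Real.log B + C' + 1))
    linarith
  have hJ2 : (J : ℝ) ≤ 3 * d * (Real.log B + C' + 1) + 2 := by
    rw [hJ]; push_cast
    have := Nat.ceil_lt_add_one (show 0 ≤ 3 * d * (Real.log B + C' + 1) by positivity)
    linarith
  have h3σ : 3 * σ ≤ J := by
    refine le_trans ?_ hJ1
    have : (d : ℝ) * (M + 1) ≤ d * (Real.log B + C' + 1) := by
      have : M + 1 ≤ Real.log B + C' + 1 := by linarith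
      gcongr
    linarith
  have hgr := hC2 K hd N B J hN hB1 (by rw [hJ]; omega) h3σ
  rw [← hX, ← hσ] at hgr
  -- conclusion
  by_contra hcon
  push Not at hcon
  have h1 : d * (Real.log B - C' - 1) ≤ σ := by
    refine le_trans ?_ hσl'
    have : Real.log B - C' - 1 ≤ M - ν := by linarith
    gcongr
  have h2 : Real.exp (d * (Real.log B - C' - 1)) ≤ C2 * J * B :=
    (Real.exp_le_exp.mpr h1).trans hgr
  have h3 : (B : ℝ) ^ 2 ≤ Real.exp (d * (Real.log B - C' - 1)) * Real.exp (d * C' + d) := by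
    rw [← Real.exp_add]
    have e1 : (B : ℝ) ^ 2 = Real.exp (2 * Real.log B) := by
      rw [← Real.exp_log (show (0 : ℝ) < B by linarith), ← Real.exp_nat_mul]
      rw [Real.exp_log (show (0 : ℝ) < B by linarith)]
      norm_num
    rw [e1]
    refine Real.exp_le_exp.mpr ?_
    nlinarith
  have h4 : (B : ℝ) ^ 2 ≤ (C2 * J * B) * Real.exp (d * C' + d) := by
    refine h3.trans ?_
    gcongr
  have h5 : (B : ℝ) ≤ (C2 * Real.exp (d * C' + d)) * J := by
    have h6 : (B : ℝ) * B ≤ ((C2 * Real.exp (d * C' + d)) * J) * B := by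
      calc (B : ℝ) * B = (B : ℝ) ^ 2 := by ring
        _ ≤ _ := h4
        _ = _ := by ring
    exact le_of_mul_le_mul_right h6 (by linarith)
  have h6 : C2 * Real.exp (d * C' + d) < E := by
    rw [hE]
    have : Real.exp (d * C' + d) < Real.exp (2 * d + d * C') := Real.exp_lt_exp.mpr (by linarith)
    exact mul_lt_mul_of_pos_left this (by linarith)
  have hJ0 : (0 : ℝ) < J := by
    have : 0 < J := by rw [hJ]; omega
    exact_mod_cast this
  have h7 : (B : ℝ) < E * J := lt_of_le_of_lt h5 (mul_lt_mul_of_pos_right h6 hJ0)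
  have h8 : E * J ≤ (m : ℝ) * m := by
    have h9 : (J : ℝ) ≤ (3 * d * (2 + C' + 1) + 2) * m := by
      refine hJ2.trans ?_
      have h10 : (0 : ℝ) ≤ d := by linarith
      have h11 : 3 * (d : ℝ) * (Real.log B + C' + 1) ≤ 3 * d * (2 * m + C' * m + m) := by
        have h12 : C' ≤ C' * m := le_mul_of_one_le_right hC'0 hm1r
        have : Real.log B + C' + 1 ≤ 2 * m + C' * m + m := by linarith
        gcongr
      have h13 : (3 * (d : ℝ) * (2 + C' + 1) + 2) * m =
          3 * d * (2 * m + C' * m + m) + 2 * m := by ring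
      linarith
    calc E * J ≤ E * ((3 * d * (2 + C' + 1) + 2) * m) := by gcongr
      _ = (E * (3 * d * (2 + C' + 1) + 2)) * m := by ring
      _ ≤ (m : ℝ) * m := by gcongr
  have h9 : (B : ℝ) = (m : ℝ) * m := by rw [hB]; push_cast; ring
  linarith

/-- the number of primes that do not split completely -/
theorem nonsplit_count (d : ℕ) (hd2 : 2 ≤ d) : ∃ A : ℕ, 1 ≤ A ∧
    ∀ (K : Type) [Field K] [NumberField K], Module.finrank ℚ K = d → ∀ N : ℕ,
    2 ^ (d + 2) * √|(discr K : ℝ)| ≤ N →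
    N ≤ ((Finset.Icc 1 (N ^ A)).filter (fun p => p.Prime ∧ ¬ FullySplit K p)).card := by
  obtain ⟨B, hB1, hB⟩ := nonsplit_sum d hd2
  refine ⟨(1 + (1 + 2 * d) * d) * B, Nat.mul_pos (by positivity) hB1, ?_⟩
  intro K _ _ hd N hN
  have h1 := hB K hd N hN
  set X := N * (d * (2 * N) ^ d) ^ d with hX
  have hD1 : 1 ≤ √|(discr K : ℝ)| := by
    rw [Real.one_le_sqrt]
    have h2 : (1 : ℤ) ≤ |discr K| := Int.one_le_abs (discr_ne_zero K)
    exact_mod_cast h2
  have hN4 : 2 ^ (d + 2) ≤ N := by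
    have h2 : (2 : ℝ) ^ (d + 2) ≤ N := by
      refine le_trans ?_ hN
      exact le_mul_of_one_le_right (by positivity) hD1
    exact_mod_cast h2
  have hdN : d ≤ N := by
    have : d < 2 ^ d := Nat.lt_two_pow_self
    have h3 : 2 ^ d ≤ 2 ^ (d + 2) := Nat.pow_le_pow_right (by norm_num) (by omega)
    omega
  have h2N : 2 ≤ N := by
    have h3 : 2 ^ 1 ≤ 2 ^ (d + 2) := Nat.pow_le_pow_right (by norm_num) (by omega)
    omega
  have hXA : X ≤ N ^ (1 + (1 + 2 * d) * d) := by
    rw [hX]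
    calc N * (d * (2 * N) ^ d) ^ d ≤ N * (N * (N * N) ^ d) ^ d := by gcongr
      _ = N ^ (1 + (1 + 2 * d) * d) := by
          rw [show N * N = N ^ 2 by ring, ← pow_mul, ← pow_succ', ← pow_mul, ← pow_succ']
          congr 1
          ring
  have hXB : X ^ B ≤ N ^ ((1 + (1 + 2 * d) * d) * B) := by
    rw [pow_mul]
    exact Nat.pow_le_pow_left hXA B
  have hNX : N ≤ X := by
    rw [hX]
    exact Nat.le_mul_of_pos_right _ (by positivity)
  have hX0 : (0 : ℝ) < X := by exact_mod_cast (by omega : 0 < X)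
  have h3 : ∑ p ∈ NS K X (X ^ B), 1 / (p : ℝ) ≤ ((NS K X (X ^ B)).card : ℝ) * (1 / (X : ℝ)) := by
    rw [← nsmul_eq_mul, ← Finset.sum_const]
    refine Finset.sum_le_sum fun p hp => ?_
    rw [NS, mem_filter, mem_Ioc] at hp
    have : (X : ℝ) ≤ p := by exact_mod_cast hp.1.1.le
    gcongr
  have h4 : (X : ℝ) ≤ ((NS K X (X ^ B)).card : ℝ) := by
    have := h1.trans h3
    rwa [mul_one_div, le_div_iff₀ hX0, one_mul] at this
  have h5 : X ≤ (NS K X (X ^ B)).card := by exact_mod_cast h4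
  refine hNX.trans (h5.trans (Finset.card_le_card ?_))
  intro p hp
  rw [NS, mem_filter, mem_Ioc] at hp
  rw [mem_filter, mem_Icc]
  exact ⟨⟨hp.2.1.one_lt.le, hp.1.2.trans hXB⟩, hp.2⟩

end Pool.Agent.H46CN
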