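import Pool.Agent.H46CN.NonSplit

/-! Many rational primes do not have two prime factors of degree one in a number field of small
discriminant. -/

set_option autoImplicit false

namespace Pool.Agent.H46CN

open Finset NumberField Pool.Agent.TH847.LS Pool.Agent.TH847.LG
open scoped Classical nonZeroDivisors

variable {K : Type} [Field K] [NumberField K]

/-- `p` has two prime factors of degree one -/
def TwoSplit (K : Type) [Field K] [NumberField K] (p : ℕ) : Prop :=
  2 ≤ ((PI K p).filter (fun P => Ideal.absNorm P = p)).card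

theorem sg_ge2 (X y : ℕ) :
    (2 : ℝ) * ∑ p ∈ (Finset.Ioc X y).filter (fun p => p.Prime ∧ TwoSplit K p), 1 / (p : ℝ) ≤
      sg K X y := by
  set S := (Finset.Ioc X y).filter (fun p => p.Prime ∧ TwoSplit K p) with hS
  have hdisj : ∀ p ∈ S, ∀ q ∈ S, p ≠ q →
      Disjoint ((PI K p).filter (fun P => Ideal.absNorm P = p))
        ((PI K q).filter (fun P => Ideal.absNorm P = q)) := by
    intro p _ q _ hpq
    rw [Finset.disjoint_left]
    intro P h1 h2
    rw [mem_filter] at h1 h2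
    exact hpq (h1.2.symm.trans h2.2)
  have hsub : S.biUnion (fun p => (PI K p).filter (fun P => Ideal.absNorm P = p)) ⊆ QP K X y := by
    intro P hP
    rw [mem_biUnion] at hP
    obtain ⟨p, hp, hP⟩ := hP
    rw [hS, mem_filter, mem_Ioc] at hp
    rw [mem_filter, mem_PI] at hP
    rw [mem_QP]
    refine ⟨prime_of hP.1.1.2 hP.1.2, ?_, ?_⟩
    · rw [hP.2]; exact hp.1.1
    · rw [hP.2]; exact hp.1.2
  calc (2 : ℝ) * ∑ p ∈ S, 1 / (p : ℝ) = ∑ p ∈ S, (2 : ℝ) * (1 / (p : ℝ)) := Finset.mul_sum _ _ _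
    _ ≤ ∑ p ∈ S, ∑ P ∈ (PI K p).filter (fun P => Ideal.absNorm P = p),
          1 / (Ideal.absNorm P : ℝ) := by
        refine Finset.sum_le_sum fun p hp => ?_
        rw [hS, mem_filter] at hp
        have h1 : 2 ≤ ((PI K p).filter (fun P => Ideal.absNorm P = p)).card := by
          exact hp.2.2
        calc (2 : ℝ) * (1 / (p : ℝ)) ≤
            (((PI K p).filter (fun P => Ideal.absNorm P = p)).card : ℝ) * (1 / (p : ℝ)) := by
              have : (2 : ℝ) ≤ (((PI K p).filter (fun P => Ideal.absNorm P = p)).card : ℝ) := by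
                exact_mod_cast h1
              gcongr
          _ = ∑ P ∈ (PI K p).filter (fun P => Ideal.absNorm P = p), 1 / (p : ℝ) := by
              rw [Finset.sum_const, nsmul_eq_mul]
          _ = _ := by
              refine Finset.sum_congr rfl fun P hP => ?_
              rw [mem_filter] at hP
              rw [hP.2]
    _ = ∑ P ∈ S.biUnion (fun p => (PI K p).filter (fun P => Ideal.absNorm P = p)),
          1 / (Ideal.absNorm P : ℝ) := by
        rw [Finset.sum_biUnion]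
        intro p hp q hq hpq
        exact hdisj p hp q hq hpq
    _ ≤ _ := by
        rw [sg]
        exact Finset.sum_le_sum_of_subset_of_nonneg hsub fun _ _ _ => by positivity

/-- the non-split primes in a range -/
noncomputable def NS2 (K : Type) [Field K] [NumberField K] (X y : ℕ) : Finset ℕ :=
  (Finset.Ioc X y).filter (fun p => p.Prime ∧ ¬ TwoSplit K p)

/-- the sum over the non-split primes is large -/
theorem nonsplit_sum2 (d : ℕ) (hd2 : 2 ≤ d) : ∃ B : ℕ, 1 ≤ B ∧
    ∀ (K : Type) [Field K] [NumberField K], Module.finrank ℚ K = d → ∀ N : ℕ,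
    2 ^ (d + 2) * √|(discr K : ℝ)| ≤ N →
    1 ≤ ∑ p ∈ NS2 K (N * (d * (2 * N) ^ d) ^ d) ((N * (d * (2 * N) ^ d) ^ d) ^ B), 1 / (p : ℝ) := by
  obtain ⟨C2, hC21, hC2⟩ := growth d (by omega)
  obtain ⟨CM, hCM0, hCM⟩ := Pool.Agent.Helper923.HMertens.mertens_ratio
  have hl2 : 0 < Real.log 2 := Real.log_pos (by norm_num)
  set C' : ℝ := CM / Real.log 2 with hC'
  have hC'0 : 0 ≤ C' := by positivity
  have hdr : (2 : ℝ) ≤ d := by exact_mod_cast hd2
  set E : ℝ := C2 * Real.exp (2 * d + d * C') with hE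
  have hE1 : 1 ≤ E := by
    have : 1 ≤ Real.exp (2 * d + d * C') := Real.one_le_exp (by positivity)
    nlinarith
  -- the choice of `m`
  set m : ℕ := ⌈E * (3 * d * (2 + C' + 1) + 2)⌉₊ with hm
  have hmE : E * (3 * d * (2 + C' + 1) + 2) ≤ m := Nat.le_ceil _
  have hm1r : (1 : ℝ) ≤ m := by
    have h0 : (0 : ℝ) ≤ 3 * d * (2 + C' + 1) := by positivity
    have : (1 : ℝ) ≤ 3 * d * (2 + C' + 1) + 2 := by linarith
    have h1 : (1 : ℝ) ≤ E * (3 * d * (2 + C' + 1) + 2) := one_le_mul_of_one_le_of_one_le hE1 this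
    linarith
  have hm1 : 1 ≤ m := by exact_mod_cast hm1r
  refine ⟨m ^ 2, Nat.one_le_pow _ _ (by omega), ?_⟩
  intro K _ _ hd N hN
  set X := N * (d * (2 * N) ^ d) ^ d with hX
  set B := m ^ 2 with hB
  have hD0 : 0 < √|(discr K : ℝ)| := by
    apply Real.sqrt_pos.mpr
    have : (discr K : ℝ) ≠ 0 := by exact_mod_cast discr_ne_zero K
    positivity
  have hNr : (0 : ℝ) < N := lt_of_lt_of_le (by positivity) hN
  have hN0 : 0 < N := by exact_mod_cast hNr
  have hpos : 0 < d * (2 * N) ^ d := by positivity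
  have hX2 : 2 ≤ X := by
    rw [hX]
    have h1 : 2 ≤ d * (2 * N) ^ d := by
      calc 2 ≤ d := hd2
        _ ≤ d * (2 * N) ^ d := Nat.le_mul_of_pos_right _ (by positivity)
    calc 2 ≤ d * (2 * N) ^ d := h1
      _ ≤ (d * (2 * N) ^ d) ^ d := Nat.le_self_pow (by omega) _
      _ ≤ _ := Nat.le_mul_of_pos_left _ hN0
  have hB1 : 1 ≤ B := Nat.one_le_pow _ _ (by omega)
  have hXy : X ≤ X ^ B := Nat.le_self_pow (by omega) X
  have hXr : (2 : ℝ) ≤ X := by exact_mod_cast hX2
  have hlX : Real.log 2 ≤ Real.log X := Real.log_le_log (by norm_num) hXr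
  have hBr : (1 : ℝ) ≤ B := by exact_mod_cast hB1
  have hlB : 0 ≤ Real.log B := Real.log_nonneg hBr
  have hlBm : Real.log B ≤ 2 * m := by
    rw [hB]; push_cast; rw [Real.log_pow]
    have := Real.log_le_sub_one_of_pos (show (0 : ℝ) < m by linarith)
    push_cast
    linarith
  -- the Mertens sum
  set M := ∑ p ∈ (Finset.Ioc X (X ^ B)).filter Nat.Prime, 1 / (p : ℝ) with hM
  have hMe := hCM X (X ^ B) hX2 hXy
  have hratio : Real.log (Real.log ((X ^ B : ℕ) : ℝ) / Real.log X) = Real.log B := by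
    push_cast
    rw [Real.log_pow, mul_div_assoc, div_self (by linarith), mul_one]
  rw [hratio, ← hM] at hMe
  have hMe' : |M - Real.log B| ≤ C' := hMe.trans (by rw [hC']; gcongr)
  obtain ⟨hM1, hM2⟩ := abs_le.mp hMe'
  set σ := sg K X (X ^ B) with hσ
  have hσu : σ ≤ d * (M + 1) := sg_le hd X (X ^ B)
  have hσl := sg_ge2 (K := K) X (X ^ B)
  rw [← hσ] at hσl
  set ν := ∑ p ∈ NS2 K X (X ^ B), 1 / (p : ℝ) with hν
  have hsplit : M = ∑ p ∈ (Finset.Ioc X (X ^ B)).filter (fun p => p.Prime ∧ TwoSplit K p),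
      1 / (p : ℝ) + ν := by
    rw [hM, hν, NS2, ← Finset.sum_filter_add_sum_filter_not
      ((Finset.Ioc X (X ^ B)).filter Nat.Prime) (fun p => TwoSplit K p),
      Finset.filter_filter, Finset.filter_filter]
  have hσl' : 2 * (M - ν) ≤ σ := by
    have : M - ν = ∑ p ∈ (Finset.Ioc X (X ^ B)).filter (fun p => p.Prime ∧ TwoSplit K p),
      1 / (p : ℝ) := by linarith
    rw [this]
    exact hσl
  -- the choice of `J`
  set J : ℕ := ⌈3 * d * (Real.log B + C' + 1)⌉₊ + 1 with hJ
  have hJ1 : 3 * d * (Real.log B + C' + 1) ≤ J := by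
    rw [hJ]; push_cast
    have := Nat.le_ceil (3 * d * (Real.log B + C' + 1))
    linarith
  have hJ2 : (J : ℝ) ≤ 3 * d * (Real.log B + C' + 1) + 2 := by
    rw [hJ]; push_cast
    have := Nat.ceil_lt_add_one (show 0 ≤ 3 * d * (Real.log B + C' + 1) by positivity)
    linarith
  have h3σ : 3 * σ ≤ J := by
    refine le_trans ?_ hJ1
    have : (d : ℝ) * (M + 1) ≤ d * (Real.log B + C' + 1) := by
      have : M + 1 ≤ Real.log B + C' + 1 := by linarith
      gcongr
    linarith
  have hgr := hC2 K hd N B J hN hB1 (by rw [hJ]; omega) h3σ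
  rw [← hX, ← hσ] at hgr
  -- conclusion
  by_contra hcon
  push Not at hcon
  have h1 : 2 * (Real.log B - C' - 1) ≤ σ := by
    refine le_trans ?_ hσl'
    have : Real.log B - C' - 1 ≤ M - ν := by linarith
    gcongr
  have h2 : Real.exp (2 * (Real.log B - C' - 1)) ≤ C2 * J * B :=
    (Real.exp_le_exp.mpr h1).trans hgr
  have h3 : (B : ℝ) ^ 2 ≤ Real.exp (2 * (Real.log B - C' - 1)) * Real.exp (d * C' + d) := by
    rw [← Real.exp_add]
    have e1 : (B : ℝ) ^ 2 = Real.exp (2 * Real.log B) := by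
      rw [← Real.exp_log (show (0 : ℝ) < B by linarith), ← Real.exp_nat_mul]
      rw [Real.exp_log (show (0 : ℝ) < B by linarith)]
      norm_num
    rw [e1]
    refine Real.exp_le_exp.mpr ?_
    nlinarith
  have h4 : (B : ℝ) ^ 2 ≤ (C2 * J * B) * Real.exp (d * C' + d) := by
    refine h3.trans ?_
    gcongr
  have h5 : (B : ℝ) ≤ (C2 * Real.exp (d * C' + d)) * J := by
    have h6 : (B : ℝ) * B ≤ ((C2 * Real.exp (d * C' + d)) * J) * B := by
      calc (B : ℝ) * B = (B : ℝ) ^ 2 := by ring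
        _ ≤ _ := h4
        _ = _ := by ring
    exact le_of_mul_le_mul_right h6 (by linarith)
  have h6 : C2 * Real.exp (d * C' + d) < E := by
    rw [hE]
    have : Real.exp (d * C' + d) < Real.exp (2 * d + d * C') := Real.exp_lt_exp.mpr (by linarith)
    exact mul_lt_mul_of_pos_left this (by linarith)
  have hJ0 : (0 : ℝ) < J := by
    have : 0 < J := by rw [hJ]; omega
    exact_mod_cast this
  have h7 : (B : ℝ) < E * J := lt_of_le_of_lt h5 (mul_lt_mul_of_pos_right h6 hJ0)
  have h8 : E * J ≤ (m : ℝ) * m := by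
    have h9 : (J : ℝ) ≤ (3 * d * (2 + C' + 1) + 2) * m := by
      refine hJ2.trans ?_
      have h10 : (0 : ℝ) ≤ d := by linarith
      have h11 : 3 * (d : ℝ) * (Real.log B + C' + 1) ≤ 3 * d * (2 * m + C' * m + m) := by
        have h12 : C' ≤ C' * m := le_mul_of_one_le_right hC'0 hm1r
        have : Real.log B + C' + 1 ≤ 2 * m + C' * m + m := by linarith
        gcongr
      have h13 : (3 * (d : ℝ) * (2 + C' + 1) + 2) * m =
          3 * d * (2 * m + C' * m + m) + 2 * m := by ring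
      linarith
    calc E * J ≤ E * ((3 * d * (2 + C' + 1) + 2) * m) := by gcongr
      _ = (E * (3 * d * (2 + C' + 1) + 2)) * m := by ring
      _ ≤ (m : ℝ) * m := by gcongr
  have h9 : (B : ℝ) = (m : ℝ) * m := by rw [hB]; push_cast; ring
  linarith

/-- the number of primes that do not split completely -/
theorem nonsplit_count2 (d : ℕ) (hd2 : 2 ≤ d) : ∃ A : ℕ, 1 ≤ A ∧
    ∀ (K : Type) [Field K] [NumberField K], Module.finrank ℚ K = d → ∀ N : ℕ,
    2 ^ (d + 2) * √|(discr K : ℝ)| ≤ N →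
    N ≤ ((Finset.Icc 1 (N ^ A)).filter (fun p => p.Prime ∧ ¬ TwoSplit K p)).card := by
  obtain ⟨B, hB1, hB⟩ := nonsplit_sum2 d hd2
  refine ⟨(1 + (1 + 2 * d) * d) * B, Nat.mul_pos (by positivity) hB1, ?_⟩
  intro K _ _ hd N hN
  have h1 := hB K hd N hN
  set X := N * (d * (2 * N) ^ d) ^ d with hX
  have hD1 : 1 ≤ √|(discr K : ℝ)| := by
    rw [Real.one_le_sqrt]
    have h2 : (1 : ℤ) ≤ |discr K| := Int.one_le_abs (discr_ne_zero K)
    exact_mod_cast h2
  have hN4 : 2 ^ (d + 2) ≤ N := by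
    have h2 : (2 : ℝ) ^ (d + 2) ≤ N := by
      refine le_trans ?_ hN
      exact le_mul_of_one_le_right (by positivity) hD1
    exact_mod_cast h2
  have hdN : d ≤ N := by
    have : d < 2 ^ d := Nat.lt_two_pow_self
    have h3 : 2 ^ d ≤ 2 ^ (d + 2) := Nat.pow_le_pow_right (by norm_num) (by omega)
    omega
  have h2N : 2 ≤ N := by
    have h3 : 2 ^ 1 ≤ 2 ^ (d + 2) := Nat.pow_le_pow_right (by norm_num) (by omega)
    omega
  have hXA : X ≤ N ^ (1 + (1 + 2 * d) * d) := by
    rw [hX]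
    calc N * (d * (2 * N) ^ d) ^ d ≤ N * (N * (N * N) ^ d) ^ d := by gcongr
      _ = N ^ (1 + (1 + 2 * d) * d) := by
          rw [show N * N = N ^ 2 by ring, ← pow_mul, ← pow_succ', ← pow_mul, ← pow_succ']
          congr 1
          ring
  have hXB : X ^ B ≤ N ^ ((1 + (1 + 2 * d) * d) * B) := by
    rw [pow_mul]
    exact Nat.pow_le_pow_left hXA B
  have hNX : N ≤ X := by
    rw [hX]
    exact Nat.le_mul_of_pos_right _ (by positivity)
  have hX0 : (0 : ℝ) < X := by exact_mod_cast (by omega : 0 < X)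
  have h3 : ∑ p ∈ NS2 K X (X ^ B), 1 / (p : ℝ) ≤ ((NS2 K X (X ^ B)).card : ℝ) * (1 / (X : ℝ)) := by
    rw [← nsmul_eq_mul, ← Finset.sum_const]
    refine Finset.sum_le_sum fun p hp => ?_
    rw [NS2, mem_filter, mem_Ioc] at hp
    have : (X : ℝ) ≤ p := by exact_mod_cast hp.1.1.le
    gcongr
  have h4 : (X : ℝ) ≤ ((NS2 K X (X ^ B)).card : ℝ) := by
    have := h1.trans h3
    rwa [mul_one_div, le_div_iff₀ hX0, one_mul] at this
  have h5 : X ≤ (NS2 K X (X ^ B)).card := by exact_mod_cast h4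
  refine hNX.trans (h5.trans (Finset.card_le_card ?_))
  intro p hp
  rw [NS2, mem_filter, mem_Ioc] at hp
  rw [mem_filter, mem_Icc]
  exact ⟨⟨hp.2.1.one_lt.le, hp.1.2.trans hXB⟩, hp.2⟩

end Pool.Agent.H46CN
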