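import Pool.Agent.H46CN.Real
import Pool.Agent.TH847.LG.Dy

/-! An upper bound for the number of ideals in a dyadic range in terms of the ideals of small
norm. -/

set_option autoImplicit false

namespace Pool.Agent.H46CN

open Finset NumberField NumberField.InfinitePlace Module Submodule Pool.Agent.TH847.LS
open scoped Classical NNReal nonZeroDivisors

variable {K : Type} [Field K] [NumberField K]

/-- the inverse of an integral ideal as a unit -/
noncomputable def invU (A : Ideal (𝓞 K)) (hA : A ≠ ⊥) : (FractionalIdeal (𝓞 K)⁰ K)ˣ :=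
  (Units.mk0 (A : FractionalIdeal (𝓞 K)⁰ K) (by rwa [Ne, FractionalIdeal.coeIdeal_eq_zero]))⁻¹

theorem invU_val (A : Ideal (𝓞 K)) (hA : A ≠ ⊥) :
    ((invU A hA : (FractionalIdeal (𝓞 K)⁰ K)ˣ) : FractionalIdeal (𝓞 K)⁰ K) =
      (A : FractionalIdeal (𝓞 K)⁰ K)⁻¹ := by
  unfold invU
  rw [Units.val_inv_eq_inv_val, Units.val_mk0]

theorem norm_invU (A : Ideal (𝓞 K)) (hA : A ≠ ⊥) :
    ((FractionalIdeal.absNorm (invU A hA : FractionalIdeal (𝓞 K)⁰ K) : ℚ) : ℝ) =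
      ((Ideal.absNorm A : ℕ) : ℝ)⁻¹ := by
  rw [invU_val, map_inv₀, FractionalIdeal.coeIdeal_absNorm]
  push_cast
  rfl

/-- `γ A` is an integral ideal when `γ` lies in the inverse of `A` -/
theorem exists_ideal {A : Ideal (𝓞 K)} (hA : A ≠ ⊥) {γ : K}
    (hγ : γ ∈ (invU A hA : FractionalIdeal (𝓞 K)⁰ K)) :
    ∃ J : Ideal (𝓞 K), (J : FractionalIdeal (𝓞 K)⁰ K) =
      FractionalIdeal.spanSingleton (𝓞 K)⁰ γ * (A : FractionalIdeal (𝓞 K)⁰ K) := by
  have hA0 : (A : FractionalIdeal (𝓞 K)⁰ K) ≠ 0 := by rwa [Ne, FractionalIdeal.coeIdeal_eq_zero]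
  rw [← FractionalIdeal.le_one_iff_exists_coeIdeal]
  rw [invU_val] at hγ
  calc FractionalIdeal.spanSingleton (𝓞 K)⁰ γ * (A : FractionalIdeal (𝓞 K)⁰ K)
      ≤ (A : FractionalIdeal (𝓞 K)⁰ K)⁻¹ * (A : FractionalIdeal (𝓞 K)⁰ K) := by
        refine mul_le_mul_left ?_ _
        rw [FractionalIdeal.spanSingleton_le_iff_mem]
        exact hγ
    _ = 1 := inv_mul_cancel₀ hA0

theorem norm_ideal {A J : Ideal (𝓞 K)} {γ : K}
    (h : (J : FractionalIdeal (𝓞 K)⁰ K) =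
      FractionalIdeal.spanSingleton (𝓞 K)⁰ γ * (A : FractionalIdeal (𝓞 K)⁰ K)) :
    ((Ideal.absNorm J : ℕ) : ℝ) = |((Algebra.norm ℚ γ : ℚ) : ℝ)| * (Ideal.absNorm A : ℕ) := by
  have h1 := congrArg (FractionalIdeal.absNorm (R := 𝓞 K) (K := K)) h
  rw [map_mul, FractionalIdeal.coeIdeal_absNorm, FractionalIdeal.coeIdeal_absNorm,
    FractionalIdeal.absNorm_span_singleton] at h1
  have h2 := congrArg (fun q : ℚ => (q : ℝ)) h1
  simp only [Rat.cast_mul, Rat.cast_natCast, Rat.cast_abs] at h2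
  exact h2

/-- the elements of the inverse of a small ideal in a large box -/
theorem card_cell {d : ℕ} (hd : finrank ℚ K = d) (N : ℕ)
    (hN : 2 ^ d * √|(discr K : ℝ)| < N) (J : Ideal (𝓞 K)) (hJ : J ≠ ⊥)
    (ρ : InfinitePlace K → ℝ≥0) (hρ : ∀ w, (d : ℝ) * (2 * N) ^ d ≤ ρ w)
    (T : Finset K) (hT : ∀ x ∈ T, x ∈ (invU J hJ : FractionalIdeal (𝓞 K)⁰ K) ∧
      ∀ w : InfinitePlace K, w x < ρ w) :
    (T.card : ℝ) * √|(discr K : ℝ)| ≤
      8 ^ d * (∏ w : InfinitePlace K, (ρ w : ℝ) ^ mult w) * (Ideal.absNorm J : ℕ) := by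
  obtain ⟨a, ha, haw⟩ := exists_primitive hd N hN
  have hspan := span_powers hd ha
  have hN1 : (1 : ℝ) ≤ N := by
    have : (0 : ℝ) < N := lt_of_le_of_lt (by positivity) hN
    have h2 : 0 < N := by exact_mod_cast this
    exact_mod_cast h2
  have hbI : ∀ i : Fin d, (a : K) ^ (i : ℕ) ∈ (invU J hJ : FractionalIdeal (𝓞 K)⁰ K) := by
    intro i
    rw [invU_val]
    have h1 : (1 : FractionalIdeal (𝓞 K)⁰ K) ≤ (J : FractionalIdeal (𝓞 K)⁰ K)⁻¹ := by
      have hJ0 : (J : FractionalIdeal (𝓞 K)⁰ K) ≠ 0 := by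
        rwa [Ne, FractionalIdeal.coeIdeal_eq_zero]
      have h := FractionalIdeal.inv_anti_mono hJ0 one_ne_zero
        (FractionalIdeal.coeIdeal_le_one (I := J) (P := K))
      rwa [inv_one] at h
    apply h1
    rw [FractionalIdeal.mem_one_iff]
    exact ⟨a ^ (i : ℕ), by push_cast; rfl⟩
  have hr : ∀ w : InfinitePlace K, ∑ i : Fin d, w ((a : K) ^ (i : ℕ)) ≤ ρ w := by
    intro w
    refine le_trans ?_ (hρ w)
    calc ∑ i : Fin d, w ((a : K) ^ (i : ℕ)) ≤ ∑ i : Fin d, (2 * (N : ℝ)) ^ d := by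
          refine Finset.sum_le_sum fun i _ => ?_
          rw [map_pow]
          calc w (a : K) ^ (i : ℕ) ≤ (2 * (N : ℝ)) ^ (i : ℕ) :=
                pow_le_pow_left₀ (apply_nonneg _ _) (haw w) _
            _ ≤ (2 * (N : ℝ)) ^ d := pow_le_pow_right₀ (by linarith) i.2.le
      _ = (d : ℝ) * (2 * N) ^ d := by simp
  have key := card_le_real (invU J hJ) hd (fun i : Fin d => (a : K) ^ (i : ℕ)) hspan hbI
    (ρ := ρ) (r := ρ) (f := fun w => 2 * ρ w) hr (fun w => by rw [two_mul]) T hT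
  rw [norm_invU] at key
  have hJ0 : (0 : ℝ) < (Ideal.absNorm J : ℕ) := by exact_mod_cast absNorm_pos hJ
  have hprod : ∏ w : InfinitePlace K, ((2 * ρ w : ℝ≥0) : ℝ) ^ mult w =
      2 ^ d * ∏ w : InfinitePlace K, (ρ w : ℝ) ^ mult w := by
    have e1 : ∏ w : InfinitePlace K, (2 : ℝ) ^ mult w = 2 ^ d := by
      rw [Finset.prod_pow_eq_pow_sum, InfinitePlace.sum_mult_eq, hd]
    rw [← e1, ← Finset.prod_mul_distrib]
    refine Finset.prod_congr rfl fun w _ => ?_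
    push_cast
    rw [mul_pow]
  rw [hprod] at key
  calc (T.card : ℝ) * √|(discr K : ℝ)|
      = ((T.card : ℝ) * (((Ideal.absNorm J : ℕ) : ℝ)⁻¹ * √|(discr K : ℝ)|)) *
          (Ideal.absNorm J : ℕ) := by field_simp
    _ ≤ (4 ^ d * (2 ^ d * ∏ w : InfinitePlace K, (ρ w : ℝ) ^ mult w)) *
          (Ideal.absNorm J : ℕ) := by gcongr
    _ = _ := by
        rw [← mul_assoc (4 ^ d : ℝ), ← mul_pow]
        norm_num

end Pool.Agent.H46CN
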