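import Mathlib
import Pool.Agent.H46CN.Mixed

/-! Counting elements of a fractional ideal in a box: real inequalities. -/

set_option autoImplicit false

namespace Pool.Agent.H46CN

open MeasureTheory Finset NumberField NumberField.InfinitePlace Module Submodule
open scoped Classical ENNReal Pointwise NNReal nonZeroDivisors

variable {K : Type} [Field K] [NumberField K] (I : (FractionalIdeal (𝓞 K)⁰ K)ˣ)

/-- the real covolume -/
noncomputable def cv : ℝ≥0 :=
  Real.toNNReal ((FractionalIdeal.absNorm (I : FractionalIdeal (𝓞 K)⁰ K) : ℚ) : ℝ) *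
    (2⁻¹ ^ nrComplexPlaces K * NNReal.sqrt ‖discr K‖₊)

theorem covol_eq : covol I = (cv I : ℝ≥0∞) := by
  unfold covol cv
  rw [mixedEmbedding.volume_fundamentalDomain_fractionalIdealLatticeBasis,
    mixedEmbedding.volume_fundamentalDomain_latticeBasis]
  push_cast
  rw [ENNReal.ofReal]

theorem box_eq (f : InfinitePlace K → ℝ≥0) :
    volume (mixedEmbedding.convexBodyLT K f) =
      ((mixedEmbedding.convexBodyLTFactor K * ∏ w, (f w) ^ (mult w) : ℝ≥0) : ℝ≥0∞) := by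
  rw [mixedEmbedding.convexBodyLT_volume]
  push_cast
  rfl

theorem sqrt_nn : ((NNReal.sqrt ‖discr K‖₊ : ℝ≥0) : ℝ) = √|(discr K : ℝ)| := by
  rw [Real.coe_sqrt, coe_nnnorm, Int.norm_eq_abs]

theorem cv_real (hI : 0 ≤ FractionalIdeal.absNorm (I : FractionalIdeal (𝓞 K)⁰ K)) :
    (cv I : ℝ) = ((FractionalIdeal.absNorm (I : FractionalIdeal (𝓞 K)⁰ K) : ℚ) : ℝ) *
      ((2 : ℝ)⁻¹ ^ nrComplexPlaces K * √|(discr K : ℝ)|) := by
  unfold cv
  rw [NNReal.coe_mul, NNReal.coe_mul, sqrt_nn, Real.coe_toNNReal _ (by exact_mod_cast hI)]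
  push_cast
  rfl

/-- upper bound for the number of elements of a fractional ideal in a box -/
theorem card_le_real {d : ℕ} (hd : finrank ℚ K = d) {ι : Type} [Fintype ι] (b : ι → K)
    (hb : Submodule.span ℚ (Set.range b) = ⊤) (hbI : ∀ i, b i ∈ (I : FractionalIdeal (𝓞 K)⁰ K))
    {ρ r f : InfinitePlace K → ℝ≥0} (hr : ∀ w, ∑ i, w (b i) ≤ r w) (hf : ∀ w, ρ w + r w ≤ f w)
    (T : Finset K) (hT : ∀ x ∈ T, x ∈ (I : FractionalIdeal (𝓞 K)⁰ K) ∧
      ∀ w : InfinitePlace K, w x < ρ w) :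
    (T.card : ℝ) * (((FractionalIdeal.absNorm (I : FractionalIdeal (𝓞 K)⁰ K) : ℚ) : ℝ) *
      √|(discr K : ℝ)|) ≤ 4 ^ d * ∏ w : InfinitePlace K, (f w : ℝ) ^ mult w := by
  have h := card_mul_covol_le I b hb hbI hr hf T hT
  rw [covol_eq, box_eq] at h
  have h1 : (T.card : ℝ≥0) * cv I ≤
      mixedEmbedding.convexBodyLTFactor K * ∏ w, (f w) ^ (mult w) := by exact_mod_cast h
  have h2 : (T.card : ℝ) * (cv I : ℝ) ≤
      (2 ^ nrRealPlaces K * Real.pi ^ nrComplexPlaces K) *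
        ∏ w : InfinitePlace K, (f w : ℝ) ^ mult w := by
    have h2 := NNReal.coe_le_coe.mpr h1
    simpa only [NNReal.coe_mul, NNReal.coe_prod, NNReal.coe_pow, NNReal.coe_natCast,
      NNReal.coe_real_pi, NNReal.coe_ofNat] using h2
  have hI : 0 ≤ FractionalIdeal.absNorm (I : FractionalIdeal (𝓞 K)⁰ K) :=
    FractionalIdeal.absNorm_nonneg _
  rw [cv_real I hI] at h2
  set P := ∏ w : InfinitePlace K, (f w : ℝ) ^ mult w with hP
  have hP0 : 0 ≤ P := Finset.prod_nonneg fun w _ => pow_nonneg (f w).2 _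
  have h3 : (2 : ℝ) ^ nrComplexPlaces K * 2⁻¹ ^ nrComplexPlaces K = 1 := by
    rw [← mul_pow]; norm_num
  have h4 : (2 : ℝ) ^ nrComplexPlaces K *
      (2 ^ nrRealPlaces K * Real.pi ^ nrComplexPlaces K) ≤ 4 ^ d := by
    have e1 : nrRealPlaces K + 2 * nrComplexPlaces K = d := by
      rw [card_add_two_mul_card_eq_rank, hd]
    calc (2 : ℝ) ^ nrComplexPlaces K * (2 ^ nrRealPlaces K * Real.pi ^ nrComplexPlaces K)
        = 2 ^ nrRealPlaces K * (2 * Real.pi) ^ nrComplexPlaces K := by rw [mul_pow]; ring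
      _ ≤ 4 ^ nrRealPlaces K * 16 ^ nrComplexPlaces K := by
          have := Real.pi_le_four
          gcongr
          · norm_num
          · linarith
      _ = 4 ^ (nrRealPlaces K + 2 * nrComplexPlaces K) := by
          rw [pow_add, pow_mul]; norm_num
      _ = 4 ^ d := by rw [e1]
  calc (T.card : ℝ) * (((FractionalIdeal.absNorm (I : FractionalIdeal (𝓞 K)⁰ K) : ℚ) : ℝ) *
      √|(discr K : ℝ)|) = (2 : ℝ) ^ nrComplexPlaces K * ((T.card : ℝ) *
        (((FractionalIdeal.absNorm (I : FractionalIdeal (𝓞 K)⁰ K) : ℚ) : ℝ) *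
      ((2 : ℝ)⁻¹ ^ nrComplexPlaces K * √|(discr K : ℝ)|))) := by
        linear_combination (-(T.card : ℝ) *
          ((FractionalIdeal.absNorm (I : FractionalIdeal (𝓞 K)⁰ K) : ℚ) : ℝ) *
          √|(discr K : ℝ)|) * h3
    _ ≤ (2 : ℝ) ^ nrComplexPlaces K *
          ((2 ^ nrRealPlaces K * Real.pi ^ nrComplexPlaces K) * P) := by gcongr
    _ = ((2 : ℝ) ^ nrComplexPlaces K *
          (2 ^ nrRealPlaces K * Real.pi ^ nrComplexPlaces K)) * P := by ring
    _ ≤ 4 ^ d * P := by gcongr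

/-- lower bound for the number of elements of a fractional ideal in a box -/
theorem exists_card_gt_real {g f : InfinitePlace K → ℝ≥0} (hfg : ∀ w, g w + g w ≤ f w) (m : ℕ)
    (h : (m : ℝ) * (((FractionalIdeal.absNorm (I : FractionalIdeal (𝓞 K)⁰ K) : ℚ) : ℝ) *
      √|(discr K : ℝ)|) < ∏ w : InfinitePlace K, (g w : ℝ) ^ mult w) :
    ∃ T : Finset K, m < T.card ∧ ∀ x ∈ T, x ∈ (I : FractionalIdeal (𝓞 K)⁰ K) ∧
      ∀ w : InfinitePlace K, w x < f w := by
  refine exists_card_gt I hfg m ?_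
  rw [covol_eq, box_eq]
  have hI : 0 ≤ FractionalIdeal.absNorm (I : FractionalIdeal (𝓞 K)⁰ K) :=
    FractionalIdeal.absNorm_nonneg _
  have hIr : (0 : ℝ) ≤ ((FractionalIdeal.absNorm (I : FractionalIdeal (𝓞 K)⁰ K) : ℚ) : ℝ) := by
    exact_mod_cast hI
  have h1 : (m : ℝ) * (cv I : ℝ) < (2 ^ nrRealPlaces K * Real.pi ^ nrComplexPlaces K) *
        ∏ w : InfinitePlace K, (g w : ℝ) ^ mult w := by
    rw [cv_real I hI]
    have e1 : (2 : ℝ)⁻¹ ^ nrComplexPlaces K ≤ 1 := pow_le_one₀ (by norm_num) (by norm_num)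
    have e2 : (1 : ℝ) ≤ 2 ^ nrRealPlaces K * Real.pi ^ nrComplexPlaces K :=
      one_le_mul_of_one_le_of_one_le (one_le_pow₀ (by norm_num))
        (one_le_pow₀ (by linarith [Real.pi_gt_three]))
    set P := ∏ w : InfinitePlace K, (g w : ℝ) ^ mult w with hP
    have hP0 : 0 ≤ P := Finset.prod_nonneg fun w _ => pow_nonneg (g w).2 _
    set A := ((FractionalIdeal.absNorm (I : FractionalIdeal (𝓞 K)⁰ K) : ℚ) : ℝ) with hA
    calc (m : ℝ) * (A * ((2 : ℝ)⁻¹ ^ nrComplexPlaces K * √|(discr K : ℝ)|))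
        ≤ (m : ℝ) * (A * (1 * √|(discr K : ℝ)|)) := by gcongr
      _ = (m : ℝ) * (A * √|(discr K : ℝ)|) := by ring
      _ < P := h
      _ ≤ _ := le_mul_of_one_le_left hP0 e2
  have h2 : (m : ℝ≥0) * cv I < mixedEmbedding.convexBodyLTFactor K * ∏ w, (g w) ^ (mult w) := by
    rw [← NNReal.coe_lt_coe]
    simpa only [NNReal.coe_mul, NNReal.coe_prod, NNReal.coe_pow, NNReal.coe_natCast,
      NNReal.coe_real_pi, NNReal.coe_ofNat] using h1
  exact_mod_cast h2

/-- a primitive element of small height -/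
theorem exists_primitive {d : ℕ} (hd : finrank ℚ K = d) (N : ℕ)
    (hN : 2 ^ d * √|(discr K : ℝ)| < N) :
    ∃ a : 𝓞 K, IntermediateField.adjoin ℚ {(a : K)} = ⊤ ∧
      ∀ w : InfinitePlace K, w (a : K) ≤ 2 * N := by
  have hN1 : (1 : ℝ) ≤ N := by
    have : (0 : ℝ) < N := lt_of_le_of_lt (by positivity) hN
    have h2 : 0 < N := by exact_mod_cast this
    exact_mod_cast h2
  have hb : mixedEmbedding.minkowskiBound K ((1 : (FractionalIdeal (𝓞 K)⁰ K)ˣ)) <
      ((N : ℝ≥0) : ℝ≥0∞) := by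
    rw [mixedEmbedding.minkowskiBound,
      mixedEmbedding.volume_fundamentalDomain_fractionalIdealLatticeBasis,
      mixedEmbedding.volume_fundamentalDomain_latticeBasis, mixedEmbedding.finrank, hd,
      Units.val_one, FractionalIdeal.absNorm_one]
    have e4 : ((2 : ℝ≥0∞)⁻¹ ^ nrComplexPlaces K) ≤ 1 := by
      apply pow_le_one₀ zero_le
      rw [ENNReal.inv_le_one]
      norm_num
    have e7 : NNReal.sqrt ‖discr K‖₊ * 2 ^ d < (N : ℝ≥0) := by
      rw [← NNReal.coe_lt_coe, NNReal.coe_mul, sqrt_nn]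
      push_cast
      linarith
    calc _ ≤ ENNReal.ofReal ((1 : ℚ) : ℝ) * (1 * (NNReal.sqrt ‖discr K‖₊ : ℝ≥0∞)) * 2 ^ d := by
          gcongr
      _ = ((NNReal.sqrt ‖discr K‖₊ * 2 ^ d : ℝ≥0) : ℝ≥0∞) := by
          push_cast
          simp
      _ < _ := by exact_mod_cast e7
  obtain ⟨w₀⟩ := (inferInstance : Nonempty (InfinitePlace K))
  rcases isReal_or_isComplex w₀ with hw | hw
  · have h1 : mixedEmbedding.minkowskiBound K ((1 : (FractionalIdeal (𝓞 K)⁰ K)ˣ)) <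
        mixedEmbedding.convexBodyLTFactor K * (N : ℝ≥0) := by
      refine lt_of_lt_of_le hb ?_
      have e5 : (1 : ℝ≥0∞) ≤ (mixedEmbedding.convexBodyLTFactor K : ℝ≥0∞) := by
        exact_mod_cast mixedEmbedding.one_le_convexBodyLTFactor K
      calc ((N : ℝ≥0) : ℝ≥0∞) = 1 * ((N : ℝ≥0) : ℝ≥0∞) := (one_mul _).symm
        _ ≤ _ := by gcongr
    obtain ⟨a, ha, haw⟩ := mixedEmbedding.exists_primitive_element_lt_of_isReal K hw h1
    refine ⟨a, ha, fun w => ?_⟩
    have h2 := haw w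
    have h3 : (((max (N : ℝ≥0) 1 : ℝ≥0)) : ℝ) = N := by
      rw [max_eq_left (by exact_mod_cast hN1)]
      simp
    have h4 : w (a : K) < (N : ℝ) := by
      rw [← h3]
      exact_mod_cast h2
    linarith
  · have h1 : mixedEmbedding.minkowskiBound K ((1 : (FractionalIdeal (𝓞 K)⁰ K)ˣ)) <
        mixedEmbedding.convexBodyLT'Factor K * (N : ℝ≥0) := by
      refine lt_of_lt_of_le hb ?_
      have e5 : (1 : ℝ≥0∞) ≤ (mixedEmbedding.convexBodyLT'Factor K : ℝ≥0∞) := by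
        exact_mod_cast mixedEmbedding.one_le_convexBodyLT'Factor K
      calc ((N : ℝ≥0) : ℝ≥0∞) = 1 * ((N : ℝ≥0) : ℝ≥0∞) := (one_mul _).symm
        _ ≤ _ := by gcongr
    obtain ⟨a, ha, haw⟩ := mixedEmbedding.exists_primitive_element_lt_of_isComplex K hw h1
    refine ⟨a, ha, fun w => ?_⟩
    have h2 := haw w
    have h3 : √(1 + ((N : ℝ≥0) : ℝ) ^ 2) ≤ 2 * N := by
      rw [Real.sqrt_le_left (by positivity)]
      simp only [NNReal.coe_natCast]
      nlinarith
    linarith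

/-- powers of a primitive element span -/
theorem span_powers {d : ℕ} (hd : finrank ℚ K = d) {a : K}
    (ha : IntermediateField.adjoin ℚ {a} = ⊤) :
    Submodule.span ℚ (Set.range fun i : Fin d => a ^ (i : ℕ)) = ⊤ := by
  have hint : IsIntegral ℚ a := Algebra.IsIntegral.isIntegral _
  have htop : Algebra.adjoin ℚ {a} = ⊤ := by
    rw [← IntermediateField.adjoin_simple_toSubalgebra_of_isAlgebraic hint.isAlgebraic, ha]
    rfl
  let pb : PowerBasis ℚ K := PowerBasis.ofAdjoinEqTop' hint htop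
  have hgen : pb.gen = a := PowerBasis.ofAdjoinEqTop'_gen hint htop
  have hdim : pb.dim = d := by rw [← pb.finrank, hd]
  have h1 := pb.basis.span_eq
  rw [eq_top_iff, ← h1, Submodule.span_le]
  rintro _ ⟨i, rfl⟩
  rw [pb.basis_eq_pow, hgen]
  exact Submodule.subset_span ⟨⟨i, by rw [← hdim]; exact i.2⟩, rfl⟩

end Pool.Agent.H46CN
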