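import Pool.Agent.H46CN.Dyadic

/-! Upper bound for the sum of reciprocals of norms of ideals in a long range. -/

set_option autoImplicit false

namespace Pool.Agent.H46CN

open Finset NumberField NumberField.InfinitePlace Module Submodule Pool.Agent.TH847.LS
  Pool.Agent.TH847.LG
open scoped Classical NNReal nonZeroDivisors

variable {K : Type} [Field K] [NumberField K]

theorem SK_mono {m N : ℕ} (h : m ≤ N) : SK K m ≤ SK K N := by
  unfold SK
  refine Finset.sum_le_sum_of_subset_of_nonneg ?_ fun _ _ _ => by positivity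
  intro I hI
  rw [mem_FI] at hI ⊢
  exact ⟨hI.1.trans h, hI.2⟩

theorem SK_nonneg (N : ℕ) : 0 ≤ SK K N := Finset.sum_nonneg fun _ _ => by positivity

/-- the number of ideals against the sum of reciprocals -/
theorem card_le_SK {n : ℕ} (hn : Module.finrank ℚ K = n) (N : ℕ) :
    ((FI K N).card : ℝ) * (1 + Real.log N) ≤ (2 + 6 * n) * N * SK K N := by
  have h1 : ((FI K N).card : ℝ) * Real.log N =
      ∑ I ∈ FI K N, (Real.log N - Real.log (Ideal.absNorm I)) +
        ∑ I ∈ FI K N, Real.log (Ideal.absNorm I) := by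
    rw [← Finset.sum_add_distrib]
    simp
  have h3 : ∑ I ∈ FI K N, (Real.log N - Real.log (Ideal.absNorm I)) ≤ N * SK K N := by
    rw [SK, Finset.mul_sum]
    refine Finset.sum_le_sum fun I hI => ?_
    rw [mem_FI] at hI
    have h4 : (0 : ℝ) < Ideal.absNorm I := by exact_mod_cast absNorm_pos hI.2
    have h5 : (0 : ℝ) < N := by
      have : (Ideal.absNorm I : ℝ) ≤ N := by exact_mod_cast hI.1
      linarith
    rw [← Real.log_div h5.ne' h4.ne', mul_one_div]
    have := Real.add_one_le_exp (Real.log (N / Ideal.absNorm I))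
    rw [Real.exp_log (by positivity)] at this
    linarith
  have h3' : ((FI K N).card : ℝ) ≤ N * SK K N := by
    rw [SK, Finset.mul_sum, Finset.card_eq_sum_ones, Nat.cast_sum]
    refine Finset.sum_le_sum fun I hI => ?_
    rw [mem_FI] at hI
    have h4 : (0 : ℝ) < Ideal.absNorm I := by exact_mod_cast absNorm_pos hI.2
    rw [mul_one_div, le_div_iff₀ h4]
    have : (Ideal.absNorm I : ℝ) ≤ N := by exact_mod_cast hI.1
    push_cast
    linarith
  have h4 : ∑ I ∈ FI K N, Real.log (Ideal.absNorm I) ≤ 6 * n * (N * SK K N) := by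
    refine (sum_log_absNorm N).trans ?_
    rw [SK, Finset.mul_sum, Finset.mul_sum]
    refine Finset.sum_le_sum fun I hI => ?_
    refine (Pool.Agent.TH847.LG.psiK_le hn _).trans ?_
    refine mul_le_mul_of_nonneg_left ?_ (by positivity)
    rw [mul_one_div]
    exact Nat.cast_div_le
  rw [mul_add, mul_one, h1]
  have h0 : (0 : ℝ) ≤ N * SK K N := mul_nonneg (Nat.cast_nonneg _) (SK_nonneg _)
  nlinarith

theorem sqrt_sum_le : ∃ C : ℝ, 0 < C ∧ ∀ (K : Type) [Field K] [NumberField K] (n : ℕ),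
    Module.finrank ℚ K = n → ∀ N : ℕ, 1 ≤ N →
    (∑ J ∈ FI K N, √((N : ℝ) / Ideal.absNorm J)) * (1 + Real.log N) ≤
      C * (2 + 6 * n) * N * SK K N := by
  obtain ⟨C0, hC0, hC⟩ := geo
  refine ⟨√2 * C0, by positivity, ?_⟩
  intro K _ _ n hn N hN
  have hNr : (1 : ℝ) ≤ N := by exact_mod_cast hN
  have hlN : 0 ≤ Real.log N := Real.log_nonneg hNr
  have hE := SK_nonneg (K := K) N
  set A : ℝ := (2 + 6 * n) with hA
  have hA0 : 0 < A := by positivity
  have key : ∀ k ∈ range (Nat.log 2 N + 1),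
      (√2) ^ k * ((FI K (N / 2 ^ k)).card : ℝ) * (1 + Real.log N) ≤
        A * N * SK K N * (((k : ℝ) + 2) * (1 / √2) ^ k) := by
    intro k hk
    rw [mem_range] at hk
    set m := N / 2 ^ k with hm
    have hm0 : 1 ≤ m := by
      rw [hm, Nat.le_div_iff_mul_le (by positivity), one_mul]
      exact Nat.pow_le_of_le_log (by omega) (by omega)
    have hmr : (1 : ℝ) ≤ m := by exact_mod_cast hm0
    have h1 := card_le_SK hn m
    rw [← hA] at h1
    have h2 : SK K m ≤ SK K N := SK_mono (Nat.div_le_self _ _)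
    have h3 : (m : ℝ) * 2 ^ k ≤ N := by
      have : m * 2 ^ k ≤ N := Nat.div_mul_le_self _ _
      exact_mod_cast this
    have h4 : (N : ℝ) ≤ m * 2 ^ (k + 1) := by
      have h5 : N < (m + 1) * 2 ^ k := by
        have := Nat.lt_div_mul_add (a := N) (b := 2 ^ k) (by positivity)
        rw [← hm] at this
        linarith
      have h6 : (N : ℝ) < ((m : ℝ) + 1) * 2 ^ k := by exact_mod_cast h5
      have h7 : (0 : ℝ) < 2 ^ k := by positivity
      rw [pow_succ]
      nlinarith
    have h5 : 1 + Real.log N ≤ (1 + Real.log m) * ((k : ℝ) + 2) := by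
      have h6 : Real.log N ≤ Real.log m + ((k : ℝ) + 1) * Real.log 2 := by
        have := Real.log_le_log (by linarith) h4
        rw [Real.log_mul (by linarith) (by positivity), Real.log_pow] at this
        push_cast at this
        exact this
      have h7 : Real.log 2 ≤ 1 := by
        have := Real.log_two_lt_d9
        linarith
      have h8 : 0 ≤ Real.log m := Real.log_nonneg hmr
      have h9 : (0 : ℝ) ≤ k := by positivity
      nlinarith
    have h6 : ((FI K m).card : ℝ) * (1 + Real.log N) ≤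
        A * ((N : ℝ) / 2 ^ k) * SK K N * ((k : ℝ) + 2) := by
      calc ((FI K m).card : ℝ) * (1 + Real.log N)
          ≤ ((FI K m).card : ℝ) * ((1 + Real.log m) * ((k : ℝ) + 2)) := by gcongr
        _ = (((FI K m).card : ℝ) * (1 + Real.log m)) * ((k : ℝ) + 2) := by ring
        _ ≤ (A * m * SK K m) * ((k : ℝ) + 2) := by gcongr
        _ ≤ (A * ((N : ℝ) / 2 ^ k) * SK K N) * ((k : ℝ) + 2) := by
            have : (m : ℝ) ≤ (N : ℝ) / 2 ^ k := by
              rw [le_div_iff₀ (by positivity)]; exact h3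
            have hEm := SK_nonneg (K := K) m
            gcongr
        _ = _ := by ring
    have h7 : (√2) ^ k * ((N : ℝ) / 2 ^ k) = N * (1 / √2) ^ k := by
      have h8 : (2 : ℝ) ^ k = (√2) ^ k * (√2) ^ k := by
        rw [← mul_pow, Real.mul_self_sqrt (by norm_num)]
      rw [h8, one_div, inv_pow]
      field_simp
    calc (√2) ^ k * ((FI K m).card : ℝ) * (1 + Real.log N)
        = (√2) ^ k * (((FI K m).card : ℝ) * (1 + Real.log N)) := by ring
      _ ≤ (√2) ^ k * (A * ((N : ℝ) / 2 ^ k) * SK K N * ((k : ℝ) + 2)) := by gcongr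
      _ = A * SK K N * ((k : ℝ) + 2) * ((√2) ^ k * ((N : ℝ) / 2 ^ k)) := by ring
      _ = _ := by rw [h7]; ring
  calc (∑ J ∈ FI K N, √((N : ℝ) / Ideal.absNorm J)) * (1 + Real.log N)
      ≤ (√2 * ∑ k ∈ range (Nat.log 2 N + 1), (√2) ^ k * ((FI K (N / 2 ^ k)).card : ℝ)) *
          (1 + Real.log N) := by
        refine mul_le_mul_of_nonneg_right (dyadic1 N) (by linarith)
    _ = √2 * ∑ k ∈ range (Nat.log 2 N + 1),
          (√2) ^ k * ((FI K (N / 2 ^ k)).card : ℝ) * (1 + Real.log N) := by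
        rw [mul_assoc, Finset.sum_mul]
    _ ≤ √2 * ∑ k ∈ range (Nat.log 2 N + 1),
          A * N * SK K N * (((k : ℝ) + 2) * (1 / √2) ^ k) := by
        refine mul_le_mul_of_nonneg_left (Finset.sum_le_sum key) (by positivity)
    _ = √2 * (A * N * SK K N) *
          ∑ k ∈ range (Nat.log 2 N + 1), ((k : ℝ) + 2) * (1 / √2) ^ k := by
        rw [← Finset.mul_sum]; ring
    _ ≤ √2 * (A * N * SK K N) * C0 := by
        refine mul_le_mul_of_nonneg_left (hC _) (by positivity)
    _ = _ := by ring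

/-- the weighted sum against the sum of reciprocals -/
theorem W_le_SK (d : ℕ) (hd1 : 1 ≤ d) : ∃ C : ℝ, 0 < C ∧
    ∀ (K : Type) [Field K] [NumberField K], Module.finrank ℚ K = d → ∀ N : ℕ, 1 ≤ N →
    (∑ J ∈ FI K N, (1 + Real.log ((N : ℝ) / Ideal.absNorm J)) ^ d) * (1 + Real.log N) ≤
      C * N * SK K N := by
  obtain ⟨C, hC0, hC⟩ := sqrt_sum_le
  refine ⟨(2 * d : ℝ) ^ d * (C * (2 + 6 * d)), by positivity, ?_⟩
  intro K _ _ hd N hN
  have hlN : 0 ≤ Real.log N := Real.log_nonneg (by exact_mod_cast hN)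
  have hW1 : ∑ J ∈ FI K N, (1 + Real.log ((N : ℝ) / Ideal.absNorm J)) ^ d ≤
      (2 * d : ℝ) ^ d * ∑ J ∈ FI K N, √((N : ℝ) / Ideal.absNorm J) := by
    rw [Finset.mul_sum]
    refine Finset.sum_le_sum fun J hJ => ?_
    rw [mem_FI] at hJ
    have h4 : (0 : ℝ) < Ideal.absNorm J := by exact_mod_cast absNorm_pos hJ.2
    refine log_pow_le hd1 ?_
    rw [le_div_iff₀ h4, one_mul]
    exact_mod_cast hJ.1
  calc _ ≤ ((2 * d : ℝ) ^ d * ∑ J ∈ FI K N, √((N : ℝ) / Ideal.absNorm J)) *
        (1 + Real.log N) := by gcongr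
    _ = (2 * d : ℝ) ^ d * ((∑ J ∈ FI K N, √((N : ℝ) / Ideal.absNorm J)) *
        (1 + Real.log N)) := by ring
    _ ≤ (2 * d : ℝ) ^ d * (C * (2 + 6 * d) * N * SK K N) := by
        have := hC K d hd N hN
        gcongr
    _ = _ := by ring

/-- the sum of the reciprocals of the norms in a range -/
noncomputable def TS (K : Type) [Field K] [NumberField K] (X w : ℕ) : ℝ :=
  ∑ I ∈ (FI K w).filter (fun I => X < Ideal.absNorm I), 1 / (Ideal.absNorm I : ℝ)

theorem sum_biUnion_le {ι α : Type*} [DecidableEq ι] [DecidableEq α] (s : Finset ι)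
    (t : ι → Finset α) (f : α → ℝ) (hf : ∀ a, 0 ≤ f a) :
    ∑ a ∈ s.biUnion t, f a ≤ ∑ i ∈ s, ∑ a ∈ t i, f a := by
  induction s using Finset.induction_on with
  | empty => simp
  | insert i s hi ih =>
    rw [Finset.biUnion_insert, Finset.sum_insert hi]
    have h1 := Finset.sum_union_inter (s₁ := t i) (s₂ := s.biUnion t) (f := f)
    have h2 : 0 ≤ ∑ a ∈ t i ∩ s.biUnion t, f a := Finset.sum_nonneg fun a _ => hf a
    linarith

theorem TS_le_dyadic (X w : ℕ) (hX : 0 < X) (B : ℝ)
    (hB : ∀ Y : ℕ, X ≤ Y →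
      (((FI K (2 * Y)).filter (fun A => Y < Ideal.absNorm A)).card : ℝ) ≤ B * Y) :
    TS K X w ≤ (Nat.log 2 w + 1) * B := by
  unfold TS
  have hsub : (FI K w).filter (fun I => X < Ideal.absNorm I) ⊆
      (range (Nat.log 2 w + 1)).biUnion (fun i =>
        (FI K (2 * (2 ^ i * X))).filter (fun A => 2 ^ i * X < Ideal.absNorm A)) := by
    intro I hI
    rw [mem_filter, mem_FI] at hI
    obtain ⟨⟨h1, h2⟩, h3⟩ := hI
    rw [mem_biUnion]
    set q := (Ideal.absNorm I - 1) / X with hq
    have hq0 : q ≠ 0 := by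
      rw [hq, Nat.div_ne_zero_iff]
      omega
    refine ⟨Nat.log 2 q, ?_, ?_⟩
    · rw [mem_range]
      have h4 : q ≤ w := (Nat.div_le_self _ _).trans (by omega)
      have := Nat.log_mono_right (b := 2) h4
      omega
    · rw [mem_filter, mem_FI]
      have h5 : 2 ^ Nat.log 2 q ≤ q := Nat.pow_log_le_self 2 hq0
      have h6 : q < 2 ^ (Nat.log 2 q + 1) := Nat.lt_pow_succ_log_self (by norm_num) q
      have h7 : q * X ≤ Ideal.absNorm I - 1 := Nat.div_mul_le_self _ _
      have h8 : Ideal.absNorm I - 1 < (q + 1) * X := by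
        have := Nat.lt_div_mul_add (a := Ideal.absNorm I - 1) hX
        rw [← hq] at this
        linarith
      have h9 : 2 ^ Nat.log 2 q * X ≤ q * X := Nat.mul_le_mul_right _ h5
      have h10 : (q + 1) * X ≤ 2 ^ (Nat.log 2 q + 1) * X := Nat.mul_le_mul_right _ h6
      rw [pow_succ] at h10
      refine ⟨⟨?_, h2⟩, by omega⟩
      have h11 : 2 ^ Nat.log 2 q * 2 * X = 2 * (2 ^ Nat.log 2 q * X) := by ring
      omega
  refine (Finset.sum_le_sum_of_subset_of_nonneg hsub fun _ _ _ => by positivity).trans ?_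
  refine (sum_biUnion_le _ _ _ fun _ => by positivity).trans ?_
  have hXr : (0 : ℝ) < X := by exact_mod_cast hX
  calc ∑ i ∈ range (Nat.log 2 w + 1), ∑ a ∈ (FI K (2 * (2 ^ i * X))).filter
        (fun A => 2 ^ i * X < Ideal.absNorm A), 1 / (Ideal.absNorm a : ℝ)
      ≤ ∑ i ∈ range (Nat.log 2 w + 1), B := by
        refine Finset.sum_le_sum fun i _ => ?_
        have hle : X ≤ 2 ^ i * X := Nat.le_mul_of_pos_left _ (by positivity)
        have h1 := hB (2 ^ i * X) hle
        have hY : (0 : ℝ) < ((2 ^ i * X : ℕ) : ℝ) := by push_cast; positivity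
        calc ∑ a ∈ (FI K (2 * (2 ^ i * X))).filter
              (fun A => 2 ^ i * X < Ideal.absNorm A), 1 / (Ideal.absNorm a : ℝ)
            ≤ ∑ a ∈ (FI K (2 * (2 ^ i * X))).filter
              (fun A => 2 ^ i * X < Ideal.absNorm A), 1 / ((2 ^ i * X : ℕ) : ℝ) := by
              refine Finset.sum_le_sum fun a ha => ?_
              rw [mem_filter] at ha
              have : ((2 ^ i * X : ℕ) : ℝ) ≤ (Ideal.absNorm a : ℝ) := by exact_mod_cast ha.2.le
              gcongr
          _ = (((FI K (2 * (2 ^ i * X))).filter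
              (fun A => 2 ^ i * X < Ideal.absNorm A)).card : ℝ) / ((2 ^ i * X : ℕ) : ℝ) := by
              rw [Finset.sum_const, nsmul_eq_mul, mul_one_div]
          _ ≤ B := by rw [div_le_iff₀ hY]; exact h1
    _ = (Nat.log 2 w + 1) * B := by simp

/-- the upper bound for the long sum of reciprocals -/
theorem TS_le (d : ℕ) (hd1 : 1 ≤ d) : ∃ C : ℝ, 0 < C ∧
    ∀ (K : Type) [Field K] [NumberField K], Module.finrank ℚ K = d → ∀ N X w : ℕ,
    2 ^ (d + 2) * √|(discr K : ℝ)| ≤ N → N * (d * (2 * N) ^ d) ^ d ≤ X → 1 ≤ w →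
    TS K X w * (1 + Real.log N) ≤ C * (1 + Real.log w) * SK K N := by
  obtain ⟨C, hC0, hC⟩ := W_le_SK d hd1
  refine ⟨2 * (8 * (16 * Real.exp 1) ^ d * C), by positivity, ?_⟩
  intro K _ _ hd N X w hN hX hw
  have hD0 : 0 < √|(discr K : ℝ)| := by
    apply Real.sqrt_pos.mpr
    have : (discr K : ℝ) ≠ 0 := by exact_mod_cast discr_ne_zero K
    positivity
  have hNr : (0 : ℝ) < N := lt_of_lt_of_le (by positivity) hN
  have hN0 : 0 < N := by exact_mod_cast hNr
  have hX0 : 0 < X := lt_of_lt_of_le (by positivity) hX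
  have hwr : (1 : ℝ) ≤ w := by exact_mod_cast hw
  set W := ∑ J ∈ FI K N, (1 + Real.log ((N : ℝ) / Ideal.absNorm J)) ^ d with hW
  have hW0 : 0 ≤ W := Finset.sum_nonneg fun J hJ => by
    rw [mem_FI] at hJ
    have h4 : (0 : ℝ) < Ideal.absNorm J := by exact_mod_cast absNorm_pos hJ.2
    have : 0 ≤ Real.log ((N : ℝ) / Ideal.absNorm J) := Real.log_nonneg (by
      rw [le_div_iff₀ h4, one_mul]; exact_mod_cast hJ.1)
    positivity
  have h1 := TS_le_dyadic (K := K) X w hX0 (8 * (16 * Real.exp 1) ^ d * (W / N)) (by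
    intro Y hY
    have hY0 : 0 < Y := lt_of_lt_of_le hX0 hY
    have hc := dyadic_count hd hY0 hN (by
      have e1 : N * (d * (2 * N) ^ d) ^ d ≤ 2 * Y := by omega
      exact_mod_cast e1)
    rw [← hW] at hc
    refine hc.trans (le_of_eq ?_)
    ring)
  have hlw : ((Nat.log 2 w : ℕ) : ℝ) + 1 ≤ 2 * (1 + Real.log w) := by
    have h2 : 2 ^ Nat.log 2 w ≤ w := Nat.pow_log_le_self 2 (by omega)
    have h3 : (Nat.log 2 w : ℝ) * Real.log 2 ≤ Real.log w := by
      rw [← Real.log_pow]
      exact Real.log_le_log (by positivity) (by exact_mod_cast h2)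
    have h4 := Real.log_two_gt_d9
    have h5 : (0 : ℝ) ≤ Nat.log 2 w := by positivity
    nlinarith
  have hlN : 0 ≤ Real.log N := Real.log_nonneg (by exact_mod_cast hN0)
  have hlw0 : 0 ≤ Real.log w := Real.log_nonneg hwr
  calc TS K X w * (1 + Real.log N)
      ≤ ((Nat.log 2 w + 1) * (8 * (16 * Real.exp 1) ^ d * (W / N))) * (1 + Real.log N) := by
        gcongr
    _ ≤ ((2 * (1 + Real.log w)) * (8 * (16 * Real.exp 1) ^ d * (W / N))) *
          (1 + Real.log N) := by gcongr
    _ = 2 * (1 + Real.log w) * (8 * (16 * Real.exp 1) ^ d) * ((W * (1 + Real.log N)) / N) := by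
        ring
    _ ≤ 2 * (1 + Real.log w) * (8 * (16 * Real.exp 1) ^ d) * ((C * N * SK K N) / N) := by
        have := hC K hd N hN0
        gcongr
    _ = _ := by field_simp

end Pool.Agent.H46CN
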